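import Pool.Agent.Helper20.QP.St1

/-!
# Project QD (MP_d112a4_gt), PART P, statements 2: Mumford compactness

Two thick cocompact Fuchsian representations of the same group whose finite sets of matrices
`{σ γ : hs (σ γ) ≤ X}` are close in the Hausdorff distance differ, up to an automorphism of the group,
by a `C^1` map of small dilatation; and there are only finitely many such finite sets up to small
Hausdorff distance.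
-/

set_option autoImplicit false

open Filter Topology Matrix Set Metric MeasureTheory
open scoped ComplexConjugate ENNReal

namespace Pool.Agent.Helper20.QP

open Pool.Agent.Helper35.PM (hs Mat SL IsDiscrete)
open Pool.Agent.Helper20.QD

/-- GEN (about 120 lines)
(Generation.)
Proof. `h = hd`.  Let `a z` be an element with `dl 0 (mob (σ (a z)⁻¹) z) ≤ b` (`Coc`), for `z ∈ D`.  Let `γ ∈ Γ`, `x = mob (σ γ) 0`,
`N` with `N (1 - ‖x‖²) ≥ 1`, `x_i = (i/N) x`.  `dl x_i x_(i+1) = (‖x‖²/N²)/((1-‖x_i‖²)(1-‖x_(i+1)‖²)) ≤ 1`.  The element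
`s_i = (a x_i)⁻¹ a x_(i+1)` satisfies `hd 0 (mob (σ s_i) 0) = hd (mob (σ (a x_i)) 0) (mob (σ (a x_(i+1))) 0) ≤
hd (mob (σ (a x_i)) 0) x_i + hd x_i x_(i+1) + … ≤ 4 arsinh √b + 2 arsinh 1` (hMET), so `hs (σ s_i) ≤ X'` (hMET (5)); the
same holds for `a x_0 = a 0` and `(a x_N)⁻¹ γ`; and `γ = a x_0 s_0 ⋯ s_(N-1) ((a x_N)⁻¹ γ)`.
Hypotheses: hSUB hMET. -/
def StGEN : Prop := ∀ b : ℝ, 0 ≤ b → ∃ X' : ℝ, ∀ (Γ : Type) [Group Γ] (σ : Γ →* SL), Fuch σ →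
  Coc σ b → Subgroup.closure {γ : Γ | hs (σ γ : Mat) ≤ X'} = ⊤

/-- MCA (about 300 lines)
(The local system of a map which is multiplicative on a ball has a section.)
Proof. Let `h0 = 4 arsinh √b + 4` and `X = 2 + 4 sinh²(h0/2)`, `S = {γ : hs (σ γ) ≤ X}`.  For `z, w ∈ D` with `hd z w ≤ 4` one has
`(a z)⁻¹ a w ∈ S` (`hd 0 (mob (σ ·) 0) = hd (mob (σ (a z)) 0) (mob (σ (a w)) 0) ≤ 4 arsinh √b + hd z w`).  `f 1 = 1` (`1 ∈ S`), so for `x, y, z`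
with pairwise `hd ≤ 4`: `f ((a x)⁻¹ a y) f ((a y)⁻¹ a z) = f ((a x)⁻¹ a z)` (∗).  If `dl ≤ 1` then `hd ≤ 2 arsinh 1 ≤ 1.8`.
Define `P N x n = ∏_(i<n) f ((a (i x/N))⁻¹ a ((i+1) x/N))` (ordered product, recursively in `n`).  Suppose `N (1-‖x‖²) ≥ 1`,
`N (1-‖y‖²) ≥ 1`.  Then `dl (i x/N) ((i+1) x/N) ≤ (1/N²)/(1-‖x‖²)² ≤ 1`.  Claim 1: `dl x y ≤ 1` implies
`P N x n * f ((a (n x/N))⁻¹ a (n y/N)) = P N y n` for `n ≤ N`: induction with (∗), `dl (n x/N) (n y/N) ≤ dl x y` (hMET (4)) and the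
triangle inequality (`n = 0`: `f 1 = 1`).  Claim 2: `P (N K) x (n K) = P N x n` for `n ≤ N`, `K ≥ 1`: the `K` factors of the
small steps between `n x/N` and `(n+1) x/N` multiply up to `f ((a (n x/N))⁻¹ a ((n+1) x/N))` by (∗); all points of that segment are at
`dl ≤ 1` from each other (`dl (s x) (s' x)` increases when the interval `[s, s']` increases).  So `Φ x = P N x N` does
not depend on `N ≥ 1/(1-‖x‖²)` (compare `N`, `M`, `N M`); Claim 1 with `n = N` is the assertion, `Φ 0 = 1`.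
Hypotheses: hSUB hMET. -/
def StMCA : Prop := ∀ b : ℝ, 0 ≤ b → ∃ X : ℝ, ∀ (Γ : Type) [Group Γ] (σ : Γ →* SL) (a : ℂ → Γ),
  Fuch σ → (∀ z ∈ D, dl 0 (mob (σ (a z)⁻¹) z) ≤ b) → ∀ (G : Type) [Group G] (f : Γ → G),
  (∀ γ δ : Γ, hs (σ γ : Mat) ≤ X → hs (σ δ : Mat) ≤ X → hs (σ (γ * δ) : Mat) ≤ X →
    f (γ * δ) = f γ * f δ) →
  ∃ Φ : ℂ → G, Φ 0 = 1 ∧ ∀ x ∈ D, ∀ y ∈ D, dl x y ≤ 1 → Φ y = Φ x * f ((a x)⁻¹ * a y)

/-- MAC (about 250 lines)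
(Macbeath: a map which is multiplicative on a large ball extends to a homomorphism.)
Proof. Enlarging `X'` we may assume that it is at least the constant of hGEN.  `X` = maximum of the constant of
hMCA, `X'` and `2 + 4 sinh²(h1/2)`, `h1 = 4 arsinh √b + 3 h'`, where `hs (σ s) ≤ X'` iff `hd 0 (mob (σ s) 0) ≤ h'`.  Choose `a`
(`Coc`), `Φ` from hMCA.  `F γ = f (a 0) * Φ (mob (σ γ) 0) * f ((a (mob (σ γ) 0))⁻¹ * γ)`.  `F 1 = 1` as `f (a 0) f ((a 0)⁻¹) = f 1 = 1`.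
Claim: `F (γ s) = F γ * f s` if `hs (σ s) ≤ X'`.  Let `p = mob (σ s) 0`, `J (1-‖p‖²) ≥ 1`, `y_j = mob (σ γ) ((j/J) p)`, so
`dl y_j y_(j+1) ≤ 1`, `y_0 = mob (σ γ) 0`, `y_J = mob (σ (γ s)) 0`, `hd (mob (σ γ) 0) y_j ≤ h'`.  `c_j = Φ y_j * f ((a y_j)⁻¹ γ)` does not
depend on `j`: `Φ y_(j+1) = Φ y_j f ((a y_j)⁻¹ a y_(j+1))` and `f ((a y_j)⁻¹ a y_(j+1)) f ((a y_(j+1))⁻¹ γ) = f ((a y_j)⁻¹ γ)` (all three
elements have `hs ≤ X`).  And `f ((a y_J)⁻¹ γ s) = f ((a y_J)⁻¹ γ) f s`.  So `F (γ s) = f (a 0) c_J f s = f (a 0) c_0 f s = F γ f s`.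
With `γ = 1`: `F s = f s`.  `F (γ δ) = F γ F δ` by induction on `δ` in the closure of the generating set (hGEN; the set is
closed under inverses, `hs A⁻¹ = hs A`).
Hypotheses: hSUB hMET hGEN hMCA. -/
def StMAC : Prop := ∀ b X' : ℝ, 0 ≤ b → ∃ X : ℝ, X' ≤ X ∧ ∀ (Γ : Type) [Group Γ] (σ : Γ →* SL),
  Fuch σ → Coc σ b → ∀ (G : Type) [Group G] (f : Γ → G),
  (∀ γ δ : Γ, hs (σ γ : Mat) ≤ X → hs (σ δ : Mat) ≤ X → hs (σ (γ * δ) : Mat) ≤ X →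
    f (γ * δ) = f γ * f δ) →
  ∃ F : Γ →* G, ∀ γ : Γ, hs (σ γ : Mat) ≤ X' → F γ = f γ

/-- TBD (about 80 lines)
(Total boundedness.)
Proof. The set `{M : Mat | hs M ≤ X}` is compact, so it is covered by finitely many balls of squared Frobenius
radius `η/4`, centres `c i`, `i ∈ Fin m`.  To `σ` attach the set `I σ` of the `i` such that some `γ` with `hs (σ γ) ≤ X` has
`hs (σ γ - c i) ≤ η/4`.  There are finitely many subsets of `Fin m`; for every subset of the form `I σ` with `p σ`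
choose one such representation: `T`.  If `I σ = I τ` and `hs (σ γ) ≤ X`, take `i` with `hs (σ γ - c i) ≤ η/4`, then `γ'` with
`hs (τ γ' - c i) ≤ η/4`; `√hs` is a norm, so `hs (σ γ - τ γ') ≤ η`.
Hypotheses: none. -/
def StTBD : Prop := ∀ (Γ : Type) [Group Γ] (p : (Γ →* SL) → Prop) (X η : ℝ), 0 < η →
  ∃ T : Set (Γ →* SL), T.Finite ∧ (∀ τ ∈ T, p τ) ∧ ∀ σ : Γ →* SL, p σ → ∃ τ ∈ T,
    (∀ γ, hs (σ γ : Mat) ≤ X → ∃ γ', hs ((σ γ : Mat) - (τ γ' : Mat)) ≤ η) ∧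
    (∀ γ', hs (τ γ' : Mat) ≤ X → ∃ γ, hs ((σ γ : Mat) - (τ γ' : Mat)) ≤ η)

/-- SEP (about 80 lines)
(Separation and counting.)
Proof. (1) `A⁻¹ B = 1 + A⁻¹ (B - A)`, and `|tr (M N)|² ≤ hs M hs N` (Cauchy-Schwarz), `hs A⁻¹ = hs A` (adjugate), so
`tr (A⁻¹ B)` is within `√(X η)` of `2` and `sh (A⁻¹ B) ≤ (1 + √(Xη)/2)² - 1 < ε` for small `η`.  (2) cover the compact set
`{M | hs M ≤ X}` by finitely many, `N`, sets on which `hs (M - M') ≤ η`; if `γ ≠ γ'` then `sh (σ (γ⁻¹ γ')) ≥ ε`, so by (1) they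
are not in the same set.
Hypotheses: none. -/
def StSEP : Prop := ∀ X ε : ℝ, 0 < ε →
  (∃ η : ℝ, 0 < η ∧ ∀ A B : SL, hs (A : Mat) ≤ X → hs ((A : Mat) - (B : Mat)) ≤ η →
    sh (A⁻¹ * B) < ε) ∧
  ∃ N : ℕ, ∀ (Γ : Type) [Group Γ] (σ : Γ →* SL), Thick σ ε →
    {γ : Γ | hs (σ γ : Mat) ≤ X}.Finite ∧ {γ : Γ | hs (σ γ : Mat) ≤ X}.ncard ≤ N

/-- PIS (about 250 lines)
(From Hausdorff closeness to an automorphism.)
Proof. Let `X2` be the constant of hGEN, `X' = max (max X1 X2) ((√X2 + 1)²) + 1`, `X` the constant of hMAC for `b, X'`;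
`η0 ≤ 1` small, to be chosen from hSEP for the bound `(√X + 1)²` and `ε`.  For `hs (σ γ) ≤ X` let `f γ` be an element
with `hs (σ γ - τ (f γ)) ≤ η` (other `γ`: `f γ = 1`).  If `γ, δ, γδ` are in the ball `hs (σ ·) ≤ X`, then with `‖M‖ = √hs M`:
`‖τ (f γ f δ) - σ (γ δ)‖ ≤ ‖τ (f γ) - σ γ‖‖τ (f δ)‖ + ‖σ γ‖‖τ (f δ) - σ δ‖ ≤ √η (2√X + 1)`, so
`‖τ (f γ f δ) - τ (f (γδ))‖ ≤ √η (2√X + 2)`, and hSEP (1) gives `sh (τ ((f (γδ))⁻¹ f γ f δ)) < ε`; as `Thick τ ε`,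
`f (γ δ) = f γ f δ`.  hMAC: a homomorphism `F` with `F γ = f γ` for `hs (σ γ) ≤ X'`.  In the same way, with `σ` and `τ`
exchanged, `H` with `hs (σ (H γ') - τ γ') ≤ η` for `hs (τ γ') ≤ X'`.  For `hs (σ γ) ≤ X2`: `hs (τ (F γ)) ≤ (√X2 + 1)² ≤ X'`, so
`‖σ (H (F γ)) - σ γ‖ ≤ 2√η` and `H (F γ) = γ` (hSEP (1), `Thick σ ε`).  By hGEN `H ∘ F = id`; in the same way `F ∘ H = id`.
`φ = F` (`MulEquiv` from the two homomorphisms).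
Hypotheses: hGEN hMAC hSEP. -/
def StPIS : Prop := ∀ b ε X1 : ℝ, 0 ≤ b → 0 < ε → ∃ X η0 : ℝ, 0 < η0 ∧
  ∀ (Γ : Type) [Group Γ] (σ τ : Γ →* SL), Fuch σ → Fuch τ → Thick σ ε → Thick τ ε → Coc σ b →
  Coc τ b → ∀ η : ℝ, 0 ≤ η → η ≤ η0 →
  (∀ γ, hs (σ γ : Mat) ≤ X → ∃ γ', hs ((σ γ : Mat) - (τ γ' : Mat)) ≤ η) →
  (∀ γ', hs (τ γ' : Mat) ≤ X → ∃ γ, hs ((σ γ : Mat) - (τ γ' : Mat)) ≤ η) →
  ∃ φ : Γ ≃* Γ, ∀ γ, hs (σ γ : Mat) ≤ X1 → hs ((σ γ : Mat) - (τ (φ γ) : Mat)) ≤ η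

/-- LSA (about 200 lines)
(The centre map.)  `V = {v | ‖v.2‖ < v.1}`.
Proof. (1) direct: `(1+r²)² - 4r² = (1-r²)²`; `cm (t • Pz z) = 2 z/(1-r²)/((1+r²)/(1-r²) + 1) = z`.  (2) `V` is a convex cone (triangle
inequality).  For `v ∈ V`, `t = √(v.1² - ‖v.2‖²)`, `z = v.2/(v.1 + t)`: `‖z‖ < 1` and `v = t • Pz z` (`‖v.2‖² = (v.1 - t)(v.1 + t)`).
(3) For `A = !![α, β; conj β, conj α]` let `Λ (a, b) = (a(‖α‖²+‖β‖²) + 2 Re(α conj β b), 2αβ a + α² b + β² conj b)`: this is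
`M ↦ A M Aᴴ` for `M = !![a, b; conj b, a]`; real linear.  `M (Pz z) = (1-‖z‖²)⁻¹ (u uᴴ + u' u'ᴴ)` with `u = (z, 1)`, `u' = (1, conj z)`,
`A u = den A z • (mob A z, 1)`, `A u' = conj (den A z) • (1, conj (mob A z))`, and
`‖den A z‖²/(1-‖z‖²) = 1/(1 - ‖mob A z‖²)`: `Λ (Pz z) = Pz (mob A z)`.  By (2) `Λ` maps `V` to `V` and
`cm (Λ v) = cm (t • Pz (mob A z)) = mob A z = mob A (cm v)`.  (4) smoothness: `√` is smooth on positive reals,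
`v.1 + t > 0`; `1 - ‖z‖² > 0`.
Hypotheses: hSUB. -/
def StLSA : Prop :=
  (∀ z ∈ D, ∀ t : ℝ, 0 < t → ‖(t • Pz z).2‖ < (t • Pz z).1 ∧ cm (t • Pz z) = z) ∧
  (∀ v w : ℝ × ℂ, ‖v.2‖ < v.1 → ‖w.2‖ < w.1 → ‖(v + w).2‖ < (v + w).1) ∧
  (∀ v : ℝ × ℂ, ‖v.2‖ < v.1 → cm v ∈ D ∧ ∃ t : ℝ, 0 < t ∧ v = t • Pz (cm v)) ∧
  (∀ A : SL, IsSU A → ∃ Λ : (ℝ × ℂ) →L[ℝ] (ℝ × ℂ), (∀ z ∈ D, Λ (Pz z) = Pz (mob A z)) ∧
    ∀ v : ℝ × ℂ, ‖v.2‖ < v.1 → ‖(Λ v).2‖ < (Λ v).1 ∧ cm (Λ v) = mob A (cm v)) ∧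
  ContDiffOn ℝ ((⊤ : ℕ∞) : WithTop ℕ∞) cm {v | ‖v.2‖ < v.1} ∧
  ContDiffOn ℝ ((⊤ : ℕ∞) : WithTop ℕ∞) Pz D

/-- LSC (about 300 lines)
(The averaged map is `C^1` close to the identity if the matrices `C i` are close to one.)
Proof. Work in the finite dimensional space `Mat^N × Mat^N × ℂ ∋ (A, C, z)`.  On the open set where the denominators
of `mob (adj A_i) z` and `mob C_i z` do not vanish and these numbers are in `D` (and `z ∈ D`) the function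
`F (A, C, z) = ∑ cut b (dl 0 (mob (adj A_i) z)) • Pz (mob C_i z)` is `C^1` (`cut b` is `C^1` with derivative
`-2 max 0 (b+1-x)`; `dl 0` is smooth on `D`; hLSA (6); `A⁻¹ = adj A` for determinant one), and `cm ∘ F` is `C^1` where moreover
`F ∈ V` (hLSA (5); `V` open), in particular where all `A_i, C_i ∈ SU(1,1)`, `z ∈ D` and `∑ cut > 0` (hLSA (1), (2)).  The
derivative in the variable `z` alone is the restriction of the full derivative, so it is continuous in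
`(A, C, z)`.  Let `K` be the set of `(A, C, z)` with `A_i, C_i ∈ SU(1,1)`, `hs A_i ≤ X`, `hs (C_i - 1) ≤ 1`, `dl 0 z ≤ b`,
`∑ cut b (dl 0 (mob A_i⁻¹ z)) ≥ 1`: compact.  `Ψ = ‖D_z (cm ∘ F) - id‖` is continuous on `K` and zero where all `C_i = 1`: there
`F (A, 1, z') = (∑ cut) • Pz z'` and `cm = z'` for `z'` near `z`.  If the claim failed for `κ` there would be points of `K`
with `hs (C_i - 1) → 0` and `Ψ > κ`; a limit point in `K` has `C = 1` and `Ψ ≥ κ`: contradiction.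
Hypotheses: hSUB hMET hLSA. -/
def StLSC : Prop := ∀ (N : ℕ) (b X κ : ℝ), 0 ≤ b → 0 < κ → ∃ η : ℝ, 0 < η ∧
  ∀ (A C : Fin N → SL) (z : ℂ), (∀ i, IsSU (A i) ∧ IsSU (C i) ∧ hs (A i : Mat) ≤ X ∧
    hs ((C i : Mat) - 1) ≤ η) → z ∈ D → dl 0 z ≤ b →
  1 ≤ ∑ i, cut b (dl 0 (mob (A i)⁻¹ z)) →
  ContDiffAt ℝ 1 (GA b A C) z ∧ GA b A C z ∈ D ∧
    ‖fderiv ℝ (GA b A C) z - ContinuousLinearMap.id ℝ ℂ‖ ≤ κ

/-- GBJ (about 150 lines)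
(A proper local diffeomorphism of the disc is bijective.)
Proof. As QD module DBJ (proved: theorem `hDBJ` in `Pool/Agent/Helper40/QD/M_DBJ.lean`, whose proof only uses
properness): `E : D → D` (subtypes) is a local homeomorphism (inverse function theorem; the derivative
`a ↦ dz E z a + dzb E z conj a` is invertible) and proper, hence closed with finite fibres, a covering map, onto
(open and closed image), and `D` is simply connected, so it is injective.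
Hypotheses: none. -/
def StGBJ : Prop := ∀ E : ℂ → ℂ, MapsTo E D D → ContDiffOn ℝ 1 E D →
  (∀ z ∈ D, ‖dzb E z‖ < ‖dz E z‖) →
  (∀ r : ℝ, r < 1 → ∃ r' : ℝ, r' < 1 ∧ ∀ z ∈ D, ‖E z‖ ≤ r → ‖z‖ ≤ r') → BijOn E D D

/-- LSD (about 300 lines)
(Local stability, uniform.)
Proof. `X` such that `dl 0 z ≤ b + 1` and `dl 0 (mob (σ γ)⁻¹ z) ≤ b + 1` imply `hs (σ γ) ≤ X` (hMET).  `N0` = the bound of hSEP
(2) for `X, ε`; `κ' = min κ 1/4`, `η2 = ` the minimum of the constants of hLSC for `N ≤ N0`, `b, X, κ'`; `η = η2/(X + 1)`.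
Let `S = {γ : hs (σ γ) ≤ X}`, finite, `N = #S ≤ N0`, enumerated `γ_i`; `A_i = σ γ_i`, `C_i = τ γ_i (σ γ_i)⁻¹`, so
`hs (C_i - 1) = hs ((τ γ_i - σ γ_i)(σ γ_i)⁻¹) ≤ η X ≤ η2`.  Define `G z = cm (∑ᶠ γ, cut b (dl 0 (mob (σ γ)⁻¹ z)) • Pz (mob (τ γ * (σ γ)⁻¹) z))`
(for `z ∈ D` only finitely many nonzero terms, by discreteness and hMET).  On `{z ∈ D | dl 0 z < b + 1}` it is
`GA b A C`.  (i) Equivariance: `G (mob (σ δ) z) = mob (τ δ) (G z)`: substitute `γ = δ γ'`, `mob (σ γ)⁻¹ (mob (σ δ) z) = mob (σ γ')⁻¹ z`,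
`mob (τ γ (σ γ)⁻¹) (mob (σ δ) z) = mob (τ δ) (mob (τ γ' (σ γ')⁻¹) z)`, then hLSA (4) (linearity; the sum is in `V` by `Coc`:
some `cut ≥ 1`, all are `≥ 0`).  (ii) at `z0`, `dl 0 z0 ≤ b`: hLSC: `C^1`, and the derivative `p h + q conj h`,
`p = dz G z0`, `q = dzb G z0`, satisfies `‖p - 1‖ + ‖q‖ ≤ κ'`, so `‖q‖ ≤ κ' ≤ κ ‖p‖` (`‖p‖ ≥ 3/4`), `p ≠ 0`, `‖q‖ < ‖p‖`; for a
general `z = mob (σ δ) z0` (`Coc`) use (i) near `z0`: chain rule with holomorphic maps, `‖q‖/‖p‖` is the same.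
(iii) properness: let `‖G z‖ ≤ r < 1`, `z = mob (σ δ) u`, `dl 0 u ≤ b`; `G u` is in the compact image of the compact ball,
`‖G u‖ ≤ r1 < 1`, and `mob (τ δ) (G u) = G z`, so `hs (τ δ)` is bounded (hSUB (6)), finitely many `δ` (discreteness of
`τ`), so `‖z‖ ≤ r' < 1`.  hGBJ.
Hypotheses: hSUB hMET hSEP hLSA hLSC hGBJ. -/
def StLSD : Prop := ∀ b ε κ : ℝ, 0 ≤ b → 0 < ε → 0 < κ → ∃ X η : ℝ, 0 < η ∧
  ∀ (Γ : Type) [Group Γ] (σ τ : Γ →* SL), Fuch σ → Fuch τ → Thick σ ε → Coc σ b →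
  (∀ γ, hs (σ γ : Mat) ≤ X → hs ((σ γ : Mat) - (τ γ : Mat)) ≤ η) →
  ∃ G : ℂ → ℂ, BijOn G D D ∧ ContDiffOn ℝ 1 G D ∧
    (∀ z ∈ D, dz G z ≠ 0 ∧ ‖dzb G z‖ ≤ κ * ‖dz G z‖) ∧
    ∀ γ, ∀ z ∈ D, G (mob (σ γ) z) = mob (τ γ) (G z)

/-- QCC (about 150 lines)
(Compositions and inverses of `C^1` quasiconformal diffeomorphisms of the disc.)
Proof. Derivative of `F` at `z`: `h ↦ p h + q conj h`.  Chain rule: `dz (E ∘ F) = p' p + q' conj q`,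
`dzb (E ∘ F) = p' q + q' conj p`; `|p' q + q' conj p| ≤ |p'||p| (k1 x + k2')…`: with `|q| = x|p|`, `|q'| = y|p'|`,
`|dzb|/|dz| ≤ (x + y)/(1 + x y)` (for complex `u, v`, `|u|,|v| < 1`: `|(u + v)/(1 + conj u v)| ≤ (|u|+|v|)/(1+|u||v|)`),
increasing in `x, y`; in particular nonzero `dz`.  Inverse: the inverse function theorem gives `C^1`; its
derivative at `F z` is `h ↦ (conj p h - q conj h)/(|p|² - |q|²)`.  Complex conjugation: `E' z = conj (E (conj z))` has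
`dz E' z = conj (dz E (conj z))`, `dzb E' z = conj (dzb E (conj z))`.
Hypotheses: none. -/
def StQCC : Prop :=
  (∀ (E F : ℂ → ℂ) (k k' : ℝ), 0 ≤ k → k < 1 → 0 ≤ k' → k' < 1 →
    BijOn E D D → ContDiffOn ℝ 1 E D → (∀ z ∈ D, dz E z ≠ 0 ∧ ‖dzb E z‖ ≤ k * ‖dz E z‖) →
    BijOn F D D → ContDiffOn ℝ 1 F D → (∀ z ∈ D, dz F z ≠ 0 ∧ ‖dzb F z‖ ≤ k' * ‖dz F z‖) →
    BijOn (fun z => E (F z)) D D ∧ ContDiffOn ℝ 1 (fun z => E (F z)) D ∧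
    ∀ z ∈ D, dz (fun z => E (F z)) z ≠ 0 ∧ ‖dzb (fun z => E (F z)) z‖ ≤
      (k + k') / (1 + k * k') * ‖dz (fun z => E (F z)) z‖) ∧
  (∀ (F : ℂ → ℂ) (k : ℝ), 0 ≤ k → k < 1 → BijOn F D D → ContDiffOn ℝ 1 F D →
    (∀ z ∈ D, dz F z ≠ 0 ∧ ‖dzb F z‖ ≤ k * ‖dz F z‖) →
    ∃ E : ℂ → ℂ, (∀ z ∈ D, E (F z) = z ∧ F (E z) = z) ∧ BijOn E D D ∧ ContDiffOn ℝ 1 E D ∧
      ∀ z ∈ D, dz E z ≠ 0 ∧ ‖dzb E z‖ ≤ k * ‖dz E z‖) ∧
  (∀ (F : ℂ → ℂ) (k : ℝ), BijOn F D D → ContDiffOn ℝ 1 F D →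
    (∀ z ∈ D, dz F z ≠ 0 ∧ ‖dzb F z‖ ≤ k * ‖dz F z‖) →
    BijOn (fun z => conj (F (conj z))) D D ∧ ContDiffOn ℝ 1 (fun z => conj (F (conj z))) D ∧
      ∀ z ∈ D, dz (fun z => conj (F (conj z))) z ≠ 0 ∧
        ‖dzb (fun z => conj (F (conj z))) z‖ ≤ k * ‖dz (fun z => conj (F (conj z))) z‖)

/-- The statement `QD.StFTF` of part B (proved). -/
def StQDFTF : Prop := Pool.Agent.Helper20.QD.StFTF

/-- MUM (about 250 lines)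
(Mumford compactness.)  `QDFTF` is the statement `QD.StFTF` of part B.
Proof. `b` from hUCC for `A0, ε`: every `Fuch`, `ε`-thick `σ` is `Coc σ b`.  `X1, η1` from hLSD for `b, ε, κ = 1/2`; `X, η0` from hPIS
for `b, ε, X1`; `η = min η0 η1`.  `T` from hTBD for `p σ = Fuch σ ∧ Thick σ ε`, `X, η`: finite.  For `τ ∈ T` hQDFTF gives
`E_τ, k_τ, τ'` for the pair `s0, τ`; let `k1 < 1` be the maximum of the `k_τ`, `k = (k1 + 1/2)/(1 + k1/2) < 1`.  Let `σ` be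
given, `τ ∈ T` close to it, `φ` from hPIS; `τ ∘ φ` is `Fuch` (same image); hLSD for `σ` and `τ ∘ φ`: `G`,
`G (mob (σ γ) z) = mob (τ (φ γ)) (G z)`; `G⁻¹` from hQCC.  If `τ' = τ`: `E = G⁻¹ ∘ E_τ`, `σ' = σ`:
`E (mob (s0 (φ γ)) z) = G⁻¹ (mob (τ (φ γ)) (E_τ z)) = mob (σ γ) (E z)`.  If `τ'` is the entrywise conjugate: with
`c z = conj z`, `E = c ∘ G⁻¹ ∘ c ∘ E_τ` and `σ'` the entrywise conjugate of `σ` (a homomorphism into `SU(1,1)`, `Fuch`: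
`mob (σ' γ) z = conj (mob (σ γ) (conj z))`, same `hs`).
Hypotheses: hSUB hUCC hPIS hTBD hLSD hQCC hQDFTF. -/
def StMUM : Prop := ∀ (Γ : Type) [Group Γ] (s0 : Γ →* SL) (A0 ε : ℝ), TF Γ → Fuch s0 → 0 < ε →
  (∀ σ : Γ →* SL, Fuch σ → ∃ F0 : Set ℂ, FD σ F0 ∧ (∫ z in F0, 4 / (1 - ‖z‖ ^ 2) ^ 2) ≤ A0) →
  ∃ k : ℝ, 0 ≤ k ∧ k < 1 ∧ ∀ σ : Γ →* SL, Fuch σ → Thick σ ε →
    ∃ (φ : Γ ≃* Γ) (σ' : Γ →* SL) (E : ℂ → ℂ), Fuch σ' ∧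
      ((∀ γ, σ' γ = σ γ) ∨ (∀ γ i j, (σ' γ : Mat) i j = conj ((σ γ : Mat) i j))) ∧
      BijOn E D D ∧ ContDiffOn ℝ 1 E D ∧
      (∀ z ∈ D, dz E z ≠ 0 ∧ ‖dzb E z‖ ≤ k * ‖dz E z‖) ∧
      ∀ γ, ∀ z ∈ D, E (mob (s0 (φ γ)) z) = mob (σ' γ) (E z)

end Pool.Agent.Helper20.QP
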