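import Pool.Agent.Helper20.QP.Defs

/-!
# Project QD (MP_d112a4_gt), PART P, statements 1: metric of the disc, hyperbolic elements, Margulis
# lemma, collars, packing

Every statement has its complete proof in the docstring; `hSUB : QD.StSUB` is the statement of part B
(`Pool/Agent/Helper20/QD/St2.lean`, elementary facts about `SU(1,1)`), it may be used as a hypothesis everywhere.
-/

set_option autoImplicit false

open Filter Topology Matrix Set Metric MeasureTheory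
open scoped ComplexConjugate ENNReal

namespace Pool.Agent.Helper20.QP

open Pool.Agent.Helper35.PM (hs Mat SL IsDiscrete)
open Pool.Agent.Helper20.QD

/-- MET (about 250 lines)
(The hyperbolic metric of the disc; `dl = sinh²(hd/2)`.)
Proof. For `A = !![a, b; conj b, conj a]`: `mob A z - mob A w = (z - w)/(den A z den A w)` and
`1 - ‖mob A z‖² = (1 - ‖z‖²)/‖den A z‖²` (`‖conj b z + conj a‖² - ‖a z + b‖² = 1 - ‖z‖²`): (1).
(2): `sinh (hd/2) = √dl` (`Real.sinh_arsinh`).  Symmetry clear; `hd z w = 0` iff `dl z w = 0` iff `z = w`.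
Triangle inequality: choose `B` with `mob B 0 = u` (hSUB), by (1) one may assume `u = 0`; with
`‖z‖ = tanh (a/2)`, `‖w‖ = tanh (b/2)` (`a = hd z 0`, `b = hd 0 w`; `‖z‖²/(1-‖z‖²) = sinh²(a/2)`,
`1/(1-‖z‖²) = cosh²(a/2)`): `dl z w ≤ (‖z‖+‖w‖)² cosh²(a/2) cosh²(b/2) = (sinh(a/2)cosh(b/2)+cosh(a/2)sinh(b/2))²
= sinh²((a+b)/2)`.  (3) assume `z = 0` by (1); `w = tanh(b/2) e`, `‖e‖ = 1`, `u = tanh(s/2) e`:
`dl u w = (tanh(b/2) - tanh(s/2))² cosh²(b/2) cosh²(s/2) = sinh²((b-s)/2)`.  (4) it is enough that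
`s(1-‖z‖²) ≤ 1 - s²‖z‖²`, i.e. `0 ≤ (1-s)(1+s‖z‖²)`, and the same for `w`.  (5): `mob A 0 = b/conj a`,
`dl 0 (mob A 0) = ‖b‖²/(‖a‖²-‖b‖²) = ‖b‖²`, `hs A = 2(‖a‖²+‖b‖²) = 2 + 4‖b‖²`.  (6) `x ↦ x/(1+x)` : `dl 0 z ≤ b`
iff `‖z‖² ≤ b/(1+b)`.  (7) `dl` is continuous on `D ×ˢ D`.
Hypotheses: hSUB. -/
def StMET : Prop :=
  (∀ (A : SL) (z w : ℂ), IsSU A → z ∈ D → w ∈ D → dl (mob A z) (mob A w) = dl z w) ∧
  (∀ z w u : ℂ, z ∈ D → w ∈ D → u ∈ D → 0 ≤ hd z w ∧ Real.sinh (hd z w / 2) ^ 2 = dl z w ∧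
    hd z w = hd w z ∧ dl z w = dl w z ∧ (hd z w = 0 ↔ z = w) ∧ hd z w ≤ hd z u + hd u w) ∧
  (∀ (z w : ℂ) (s : ℝ), z ∈ D → w ∈ D → 0 ≤ s → s ≤ hd z w →
    ∃ u ∈ D, hd z u = s ∧ hd u w = hd z w - s) ∧
  (∀ (z w : ℂ) (s : ℝ), z ∈ D → w ∈ D → 0 ≤ s → s ≤ 1 → dl (s * z) (s * w) ≤ dl z w) ∧
  (∀ A : SL, IsSU A → hs (A : Mat) = 2 + 4 * dl 0 (mob A 0)) ∧
  (∀ (z : ℂ) (b : ℝ), z ∈ D → 0 ≤ b → (dl 0 z ≤ b ↔ ‖z‖ ^ 2 ≤ b / (1 + b))) ∧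
  ContinuousOn (fun p : ℂ × ℂ => dl p.1 p.2) (D ×ˢ D)

/-- HY1 (about 250 lines)
(Elements of `SU(1,1)`.)  `A = !![a, b; conj b, conj a]`, `sh A = (Re a)² - 1`.
Proof. (1) formula: `z - mob A z = (conj b z² + (conj a - a) z - b)/den A z`, and
`1 - ‖mob A z‖² = (1-‖z‖²)/‖den A z‖²`.  (2): for `z ∈ D` choose `B ∈ SU(1,1)`, `mob B 0 = z`, `A' = B⁻¹ A B ∈ SU(1,1)`
(hSUB) with entries `a', b'`: `dl z (mob A z) = dl 0 (mob A' 0) = ‖b'‖²` (invariance of `dl`: hMET (1), (5))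
`= ‖a'‖² - 1 ≥ (Re a')² - 1 = sh A' = sh A` (trace).  (3) `sh A < 0`: `|Re a| < 1`.  If `b = 0` take `z = 0`.
Otherwise `conj b z² - 2i Im a z - b = 0` has the roots `z = i(Im a ± √((Im a)² - ‖b‖²))/conj b`, and
`(Im a)² - ‖b‖² = 1 - (Re a)² > 0`; their product is `-b/conj b`, of modulus one, and the moduli are different,
so one root is in `D`; `den A z ≠ 0` there, so `mob A z = z`.  (4) `sh A = 0`, `A ≠ ±1`: `‖b‖ = |Im a| ≠ 0`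
(if `b = 0` then `‖a‖ = 1`, `Re a = ±1`, `A = ±1`); double root `ζ = i Im a/conj b ∈ SS`; for `z = rζ`,
`0 < r < 1`: `dl z (mob A z) = ‖b‖² (1-r)⁴/(1-r²)² = ‖b‖² (1-r)²/(1+r)²`, positive and tending to zero as `r → 1`.
(5) `sh A > 0`: `(Im a)² < ‖b‖²`.  If `Im a = 0` take `z = 0`: `dl 0 (mob A 0) = ‖b‖² = (Re a)² - 1`.  In general look for
`z = i s b/‖b‖`, `s ∈ (-1,1)`: `conj b z² - 2i Im a z - b = (b/‖b‖)(-‖b‖ s² + 2 Im a s - ‖b‖)`, so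
`dl = (‖b‖(1+s²) - 2 s Im a)²/(1-s²)²`; take `s` with `2s/(1+s²) = Im a/‖b‖`: then `dl = (‖b‖² - (Im a)²)(…)`: with
`t = Im a/‖b‖`, `‖b‖(1+s²)(1 - t²)/(1-s²)`, `(1-s²)/(1+s²) = √(1-t²)`, so `dl = ‖b‖²(1-t²) = (Re a)² - 1`.
(6) conjugation: trace.
Hypotheses: hSUB hMET. -/
def StHY1 : Prop :=
  (∀ (A : SL) (z : ℂ), IsSU A → z ∈ D → dl z (mob A z) =
    ‖(A : Mat) 1 0 * z ^ 2 + ((A : Mat) 1 1 - (A : Mat) 0 0) * z - (A : Mat) 0 1‖ ^ 2 /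
      (1 - ‖z‖ ^ 2) ^ 2) ∧
  (∀ (A : SL) (z : ℂ), IsSU A → z ∈ D → sh A ≤ dl z (mob A z)) ∧
  (∀ A : SL, IsSU A → sh A < 0 → ∃ z ∈ D, mob A z = z) ∧
  (∀ A : SL, IsSU A → sh A = 0 → (A : Mat) ≠ 1 → (A : Mat) ≠ -1 →
    ∀ ε : ℝ, 0 < ε → ∃ z ∈ D, 0 < dl z (mob A z) ∧ dl z (mob A z) < ε) ∧
  (∀ A : SL, IsSU A → 0 < sh A → ∃ z ∈ D, dl z (mob A z) = sh A) ∧
  (∀ A B : SL, sh (B * A * B⁻¹) = sh A)

/-- HY2 (about 250 lines)
(In a torsion free cocompact Fuchsian group every element is hyperbolic, with translation length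
bounded below.)
Proof. (1) if `(σ γ) = ±1` then all powers of `γ` are in the finite set `{hs (σ ·) ≤ 2}`, so `γ^i = γ^j` with
`i < j`, `γ^(j-i) = 1`, `γ = 1`.  More generally if `mob (σ γ) z = z` for some `z ∈ D` then `γ = 1`: with `B`, `mob B 0 = z`
(hSUB), `B⁻¹ σ(γ^n) B` fixes `0`, so its `hs` is `2` (hMET (5)) and `hs (σ (γ^n)) ≤ hs B hs B⁻¹ * 2`
(submultiplicativity of the Frobenius norm: `QD.StLMX`, or by Cauchy-Schwarz) is bounded: finitely many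
powers, as before.  (2) `sh (σ γ) < 0` is impossible for `γ ≠ 1` by hHY1 (3).  (3) Let `r0 < 1` be the constant of
`Fuch.cocompact`, and let `F` be the set of `β ≠ 1` with `hs (σ β) ≤ X`, finite.  For `β ∈ F` the function
`z ↦ dl z (mob (σ β) z)` is continuous and positive on the compact ball `‖z‖ ≤ r0` (positive by (1)), so there is
`m > 0` below all of them.  If `β ≠ 1`, `‖z‖ ≤ r0` and `dl z (mob (σ β) z) ≤ 1`: then `hd 0 (mob (σ β) 0) ≤ 2 hd 0 z + hd z (mob z)` is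
bounded, so `β ∈ F` for a suitable `X` (hMET).  Hence `dl z (mob (σ β) z) ≥ min m 1` for all `β ≠ 1`, `‖z‖ ≤ r0`, and by
cocompactness (`z' = mob (σ δ) z`, `dl z (mob (σ γ) z) = dl z' (mob (σ (δ γ δ⁻¹)) z')`) for all `z ∈ D`.  (4) so
`sh (σ γ) = 0` is impossible for `γ ≠ 1` (hHY1 (4)), and for `sh > 0` hHY1 (5) gives `sh (σ γ) = dl z (mob (σ γ) z) ≥ min m 1`.
Hypotheses: hSUB hMET hHY1. -/
def StHY2 : Prop := ∀ (Γ : Type) [Group Γ] (σ : Γ →* SL), Fuch σ → TF Γ →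
  (∀ γ, ((σ γ : Mat) = 1 ∨ (σ γ : Mat) = -1) → γ = 1) ∧
  (∀ γ, ∀ z ∈ D, mob (σ γ) z = z → γ = 1) ∧
  ∃ ε : ℝ, 0 < ε ∧ Thick σ ε

/-- SCE (about 250 lines)
(Existence of the strip coordinate.)
Proof. `l = 2 arsinh √(sh A)`.  By hHY1 (5) there is `z0 ∈ D` with `dl z0 (mob A z0) = sh A`; with `mob B0 0 = z0`,
`A' = B0⁻¹ A B0 = !![a, b; conj b, conj a]` has `‖b‖² = sh A = (Re a)² - 1`, so `‖a‖² = (Re a)²`, `a` is real, `|a| = cosh(l/2)`,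
`‖b‖ = sinh(l/2)`.  Conjugating with a diagonal matrix `diag(e^{iθ}, e^{-iθ})` (it multiplies `b` by `e^{2iθ}`) we get
`A'' = ± !![cosh(l/2), sinh(l/2); sinh(l/2), cosh(l/2)]`, `A = B A'' B⁻¹`, `B ∈ SU(1,1)`.  Put
`q w = mob B (cay (exp (l w)))`, `cay z = (z - i)/(z + i)`: `w ↦ l w` is a bijection from the strip onto
`0 < Im < π`, `exp` from there onto the upper half plane, `cay` onto the disc, `mob B` onto the disc (hSUB);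
all are holomorphic.  `cay (e^l z) = mob A'' (cay z)` (`cay` conjugates `diag(e^{l/2}, e^{-l/2})` to
`!![cosh(l/2), sinh(l/2); sinh(l/2), cosh(l/2)]`: direct computation), so `q (w+1) = mob A (q w)`.
`dl (cay z) (cay z') = ‖z - z'‖²/(4 Im z Im z')` and `1 - ‖cay z‖² = 4 Im z/‖z + i‖²`, `cay' z = 2i/(z+i)²`; with
`z = e^{l w}`: `Im z = e^{l Re w} sin (l Im w)`, `z - z' = 2 e^{l(w+w')/2} sinh(l(w-w')/2)`: `dst`; the density
`‖q'‖ 2/(1-‖q‖²)` is invariant under `mob B` (`‖(mob B)' u‖ = 1/‖den B u‖²`), and equals `‖l e^{lw}‖/Im e^{lw}`: `den`.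
Hypotheses: hSUB hMET hHY1. -/
def StSCE : Prop := ∀ A : SL, IsSU A → 0 < sh A → ∃ (l : ℝ) (q : ℂ → ℂ), SC A l q

/-- ZAS (about 200 lines)
(Margulis lemma.)  Constant `1/1600`.
Proof. Let `B ∈ SU(1,1)` with `mob B 0 = z`, `τ γ = B⁻¹ σ(γ) B`, with entries `a_γ, b_γ`; `dl z (mob (σ γ) z) = ‖b_γ‖²`.  `E` =
set of `γ ≠ 1` with `‖b_γ‖² ≤ 1/1600`; it is finite (discreteness).  We may assume `α, β ≠ 1`, so `E` is not empty;
let `α0 ∈ E` have the smallest `‖b‖`.  Let `γ ∈ E`.  By hHY2 `sh > 0`: `|Re a| > 1`.  For an element `A` of `τ(E)`,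
`s = ±1` the sign of `Re a`, `s A = 1 + X`: `0 ≤ s Re a - 1 ≤ ((Re a)² - 1)/2 ≤ ‖b‖²/2 ≤ ‖b‖/2` and
`(Im a)² = 1 + ‖b‖² - (Re a)² < ‖b‖²`, so `hs X = 2(‖s a - 1‖² + ‖b‖²) ≤ 2(‖b‖²/4 + ‖b‖² + ‖b‖²) ≤ 5‖b‖²`.  With
`A = τ α0`, `A' = τ γ`, `K = A A' A⁻¹ A'⁻¹`, `K - 1 = (X Y - Y X)(s A)⁻¹ (s' A')⁻¹` (`A A' - A' A = s s' (XY - YX)`), so by
submultiplicativity `√hs (K - 1) ≤ 2 √5 ‖b‖ √5 ‖b'‖ √(hs A hs A') ≤ 10 ‖b‖ ‖b'‖ * 3`, (`hs A = 2 + 4‖b‖² ≤ 3`), and the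
off-diagonal entry of `K` satisfies `‖b_K‖ ≤ √hs (K-1) ≤ 30 ‖b‖ ‖b'‖ ≤ (3/4) ‖b‖ < ‖b‖` (`‖b'‖ ≤ 1/40`, and `b ≠ 0`).  So the commutator
`α0 γ α0⁻¹ γ⁻¹` is not in `E` by minimality, and its `‖b‖²` is small, hence it is `1`.  So all elements of `E` commute with
`α0`; `τ α0` is not scalar, and two matrices commuting with a nonscalar `2 × 2` matrix commute (both are
polynomials in it); so `τ α, τ β` commute, `σ (α β α⁻¹ β⁻¹) = 1`, and hHY2 (1).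
Hypotheses: hSUB hMET hHY2. -/
def StZAS : Prop := ∀ (Γ : Type) [Group Γ] (σ : Γ →* SL), Fuch σ → TF Γ →
  ∀ (z : ℂ) (α β : Γ), z ∈ D → dl z (mob (σ α) z) ≤ 1 / 1600 → dl z (mob (σ β) z) ≤ 1 / 1600 →
    Commute α β

/-- CEN (about 250 lines)
(Centralisers.)
Proof. Let `α ≠ 1`, `A = σ α`, `sh A > 0` (hHY2), `tr A` real, `|tr A| > 2`: `A` has real eigenvalues `λ, 1/λ`, `|λ| > 1`, and
there is `P ∈ SL` with `A = P diag(λ, 1/λ) P⁻¹`.  (3): matrices commuting with a matrix `diag(λ, 1/λ)`, `λ ≠ 1/λ`, are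
diagonal; so `σ β, σ γ` commute, and hHY2 (1) (faithful) gives `β γ = γ β`.  (2): let `G = P⁻¹ σ(γ) P`,
`G diag(λ^n, λ^-n) = diag(λ^m, λ^-m) G`, i.e. `G₁₁(λ^n - λ^m) = G₁₂(λ^-n - λ^m) = G₂₁(λ^n - λ^-m) = G₂₂(λ^-n - λ^-m) = 0`.
`|λ| > 1`, `n ≠ 0`: if `m = n` then `G₁₂ = G₂₁ = 0` (`|λ|^(-n) ≠ |λ|^m`), `G` is diagonal and `γ` commutes with `α`.  If
`m = -n` then `G₁₁ = G₂₂ = 0`, so `G² = -1`, `σ(γ²) = -1`, `γ² = 1`, `γ = 1`: contradiction.  Otherwise `G = 0`: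
contradiction.  (1): `Z` = centraliser of `α`; for `β ∈ Z`: `P⁻¹ σ(β) P = diag(μ, 1/μ)`, `t β = log ‖μ‖`, a homomorphism
`Z → ℝ`.  `{β ∈ Z : |t β| ≤ T}` is finite (`hs (σ β) ≤ hs P hs P⁻¹ (2 e^{2T})`).  Its kernel is finite, hence trivial
(torsion free).  The image is a subgroup of `ℝ` which is not dense (`AddSubgroup.dense_or_cyclic`), so it is
generated by one element `t α0`; then `Z = ⟨α0⟩`; `α = α0^n`, `n ≠ 0`, replace `α0` by its inverse if `n < 0`.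
`Prim α0`: an element commuting with `α0` commutes with `α`, so it is a power of `α0`; `α0 ≠ 1`.  (4): if `α` is
`Prim` and `α^n = 1` then `n = 0` (torsion free).
Hypotheses: hSUB hHY2. -/
def StCEN : Prop := ∀ (Γ : Type) [Group Γ] (σ : Γ →* SL), Fuch σ → TF Γ →
  (∀ α : Γ, α ≠ 1 → ∃ (α0 : Γ) (n : ℕ), Prim α0 ∧ 1 ≤ n ∧ α = α0 ^ n) ∧
  (∀ (α γ : Γ) (n m : ℤ), α ≠ 1 → n ≠ 0 → γ * α ^ n * γ⁻¹ = α ^ m → Commute γ α) ∧
  (∀ α β γ : Γ, α ≠ 1 → Commute α β → Commute α γ → Commute β γ) ∧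
  (∀ (α : Γ) (n m : ℤ), α ≠ 1 → α ^ n = α ^ m → n = m)

/-- COL (about 200 lines)
(Collars.)  Constants: margin `64`, length at most `1`.
Proof. Let `w ∈ Sab 64 (π/l - 64)`, `z = q w`.  `q (w+1) = mob (σ α) z`, so `dl z (mob (σ α) z) = sinh²(l/2)/sin²(l Im w)` (`SC.dst`).  As
`64 l < l Im w < π - 64 l`: `sin (l Im w) ≥ sin (64 l)` (`64 l < π/2`), `≥ (2/π) 64 l` (Jordan's inequality
`Real.mul_le_sin`), and `sinh(l/2) ≤ l` for `l ≤ 1`: `dl ≤ (π/128)² ≤ 1/1600`.  (1) Let `z = q w = mob (σ γ) (q w')` be in both.  Then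
`dl z (mob (σ α) z) ≤ 1/1600` and with `α' = γ α γ⁻¹`: `dl z (mob (σ α') z) = dl (q w') (mob (σ α) (q w')) ≤ 1/1600` (hSUB, hMET).  hZAS:
`α'` commutes with `α`, so `α' = α^m` (`Prim`), hCEN (2) with `n = 1`: `γ` commutes with `α`, so `γ = α^n`.
(2) in the same way `γ α γ⁻¹` (`z = q' w' = mob (σ γ) (q w)`) commutes with `β`: `γ α γ⁻¹ = β^n`, and
`γ⁻¹ β γ` commutes with `α`: `γ⁻¹ β γ = α^m`.  So `β = γ α^m γ⁻¹ = β^(nm)`, `nm = 1` (hCEN (4)), `n = ±1`: `Cj α β`.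
Hypotheses: hSUB hMET hZAS hCEN. -/
def StCOL : Prop := ∀ (Γ : Type) [Group Γ] (σ : Γ →* SL), Fuch σ → TF Γ →
  ∀ (α β : Γ) (l l' : ℝ) (q q' : ℂ → ℂ), Prim α → Prim β → SC (σ α) l q → SC (σ β) l' q' →
  l ≤ 1 → l' ≤ 1 →
  (∀ γ : Γ, (∀ n : ℤ, γ ≠ α ^ n) →
    Disjoint (mob (σ γ) '' (q '' Sab 64 (Real.pi / l - 64))) (q '' Sab 64 (Real.pi / l - 64))) ∧
  (¬ Cj α β → ∀ γ : Γ,
    Disjoint (mob (σ γ) '' (q '' Sab 64 (Real.pi / l - 64))) (q' '' Sab 64 (Real.pi / l' - 64)))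

/-- ARC (about 120 lines)
(Area of a fundamental piece of a collar.)
Proof. `q` is injective and holomorphic on the strip; change of variables
(`MeasureTheory.lintegral_image_eq_lintegral_abs_det_fderiv_mul`, the determinant of a complex linear map is
`‖q'‖²`) and `SC.den`: `ar (q '' S) = ∫⁻_S (l/sin (l Im w))²` `= ∫_0^1 ∫_a^b l²/sin²(l y) dy dx = l (cot(la) - cot(lb))`
(`ℂ ≃ ℝ × ℝ` measure preserving, derivative of `cot` is `-1/sin²`; the set `{a < Im < b, 0 ≤ Re < 1}`).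
Hypotheses: none. -/
def StARC : Prop := ∀ (A : SL) (l : ℝ) (q : ℂ → ℂ), SC A l q → ∀ a b : ℝ, 0 < a → a < b →
  b < Real.pi / l → ar (q '' {w | w ∈ Sab a b ∧ 0 ≤ w.re ∧ w.re < 1}) =
    ENNReal.ofReal (l * (Real.cos (l * a) / Real.sin (l * a) - Real.cos (l * b) / Real.sin (l * b)))

/-- BLL (about 120 lines)
(Area of hyperbolic discs and invariance of the area.)
Proof. (1) invariance: `mob A` is injective on `D` with `‖(mob A)' z‖ = 1/‖den A z‖²` (hSUB (5)) and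
`1 - ‖mob A z‖² = (1-‖z‖²)/‖den A z‖²` (hMET); change of variables.  (2) by (1) and `mob B 0 = z0` (hSUB) we may
assume `z0 = 0`; the set is `{‖z‖² < s/(1+s)}`; polar coordinates
(`Complex.lintegral_comp_polarCoord_symm`): `∫_0^R 4/(1-r²)² 2π r dr = 4π (1/(1-R²) - 1) = 4π s`.
Hypotheses: hSUB hMET. -/
def StBLL : Prop :=
  (∀ (A : SL) (S : Set ℂ), IsSU A → MeasurableSet S → S ⊆ D → ar (mob A '' S) = ar S) ∧
  (∀ (z0 : ℂ) (s : ℝ), z0 ∈ D → 0 < s → ar {z | z ∈ D ∧ dl z0 z < s} =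
    ENNReal.ofReal (4 * Real.pi * s))

/-- PKG (about 200 lines)
(Packing.)  Disjoint translates of pieces have total area at most that of a fundamental domain,
which is finite.
Proof. `Γ` is countable (`IsDiscrete`: it is the union of the finite sets `{hs (σ ·) ≤ n}`).  (1): For every `i`,
`P i ⊆ D = ⋃_γ (mob (σ γ))⁻¹ F0` (disjoint, `FDOn.ex`), so `ar (P i) = ∑_γ ar (P i ∩ {z | mob (σ γ) z ∈ F0}) =
∑_γ ar (mob (σ γ) '' (P i) ∩ F0)` (hBLL (1)).  The sets `mob (σ γ) '' (P i)`, over all `(i, γ)`, are pairwise disjoint, so the sum over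
`i` and `γ` is at most `ar F0` (`measure_iUnion`, the measure with density on `D`).  (2) finite: as in (1) with the
roles exchanged: `F0 ⊆ ⋃_γ mob (σ γ) '' (closedBall 0 r0)` (cocompactness), choose measurable disjoint pieces:
`ar F0 ≤ ∑_γ ar (F0 ∩ mob (σ γ) '' closedBall) = ∑_γ ar (mob (σ γ)⁻¹ '' F0 ∩ closedBall) ≤ ar (closedBall 0 r0) < ∞` (the
translates of `F0` are disjoint).  The Bochner integral is the value of the lower integral since the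
integrand is nonnegative and measurable (`integral_eq_lintegral_of_nonneg_ae`).
Hypotheses: hSUB hBLL. -/
def StPKG : Prop := ∀ (Γ : Type) [Group Γ] (σ : Γ →* SL) (F0 : Set ℂ), Fuch σ → FD σ F0 →
  (∀ (ι : Type) [Fintype ι] (P : ι → Set ℂ), (∀ i, MeasurableSet (P i) ∧ P i ⊆ D) →
    (∀ (i j : ι) (γ : Γ), (i ≠ j ∨ γ ≠ 1) → Disjoint (mob (σ γ) '' P i) (P j)) →
    ∑ i, ar (P i) ≤ ar F0) ∧
  ar F0 ≠ ∞ ∧ (ar F0).toReal = ∫ z in F0, 4 / (1 - ‖z‖ ^ 2) ^ 2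

/-- NCL (about 200 lines)
(The number of short classes.)
Proof. `N = ⌈64 A0⌉ + 1` works.  Suppose not: `a : Fin (N+1) → Γ` with pairwise non conjugate (`Cj`) values, `SC (σ (a i)) (l i) (q i)`
from hSCE (`0 < sh` by hHY2), `l i ≤ 1/64`: `sinh²(l/2) = sh ≤ (1/128)² ≤ sinh²(1/128)`.  `P i = q i '' {w ∈ Sab 64 (π/l - 64), 0 ≤ Re w < 1}`.
Pairwise disjointness of the translates: for `i ≠ j` hCOL (2) (`Cj` is symmetric in the needed form).  For `i = j`,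
`γ ≠ 1`: if `γ` is not a power of `a i`: hCOL (1); if `γ = (a i)^n`, `n ≠ 0`: `mob (σ γ) (q w) = q (w + n)` (`SC.per`
iterated), and `q` is injective on the strip, `0 ≤ Re w < 1` and `0 ≤ Re w + n < 1` are incompatible.
Measurable: images of measurable sets under injective continuous maps on an open set
(`MeasurableSet.image_of_continuousOn_injOn`).  hARC: `ar (P i) = 2 l cot(64 l) ≥ 1/64` as `64 l ≤ 1`,
`x cot x ≥ 1/2` for `0 < x ≤ 1` (`tan x ≤ 2x` there, or `cos x ≥ x/2 …`: `sin x ≤ x`, `cos x ≥ 1/2`).  hPKG: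
`(N+1)/64 ≤ A0`: contradiction.
Hypotheses: hSUB hHY2 hSCE hCOL hARC hPKG. -/
def StNCL : Prop := ∀ A0 : ℝ, ∃ N : ℕ, ∀ (Γ : Type) [Group Γ] (σ : Γ →* SL) (F0 : Set ℂ),
  Fuch σ → TF Γ → FD σ F0 → (∫ z in F0, 4 / (1 - ‖z‖ ^ 2) ^ 2) ≤ A0 →
  ∀ a : Fin (N + 1) → Γ, (∀ i, Prim (a i) ∧ sh (σ (a i)) ≤ 1 / 128 ^ 2) →
  ∃ i j, i ≠ j ∧ Cj (a i) (a j)

/-- UCC (about 250 lines)
(Uniform cocompactness of thick groups.)
Proof. Let `ε' = min ε 1`, `r > 0` with `4 sinh² … `: choose `r = min (1/8) (arsinh √ε')`, so that `4r < 1`, `sinh²(r) ≤ ε'`, `s0 = sinh²(r/2)`, and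
`b` with: `R ≤ A0/(4π s0) + 2` implies `sinh²(R/2) ≤ b`.  Let `z ∈ D`.  The function `γ ↦ dl 0 (mob (σ γ) z)` has a minimum
(discreteness: `hs (σ γ)` is bounded if `dl 0 (mob (σ γ) z)` is, hMET), at `γ0`; let `z' = mob (σ γ0) z`, `R = hd 0 z'`; so
`hd (mob (σ γ) 0) z' ≥ R` for all `γ` (`dl (mob (σ γ) 0) z' = dl 0 (mob (σ γ⁻¹) z')`).  For `j = 1..J`, `J = ⌊R⌋`, let `x_j` with
`hd 0 x_j = j`, `hd x_j z' = R - j` (hMET (3)).  Then `hd (mob (σ γ) 0) x_j ≥ j` for every `γ`, with equality for `γ = 1`.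
`P j = {x ∈ D | dl x_j x < s0}` (`hd x_j x < r`).  If `mob (σ γ) '' P i` meets `P j` then `hd (mob (σ γ) x_i) x_j < 2r`;
`min over δ of hd (mob (σ δ) 0) x` is `i` at `mob (σ γ) x_i` and `j` at `x_j`, so `|i - j| ≤ 2r < 1`, `i = j`; and then
`hd x_i (mob (σ γ) x_i) < 2r`, so `dl < sinh² r ≤ ε' ≤ ε`, which contradicts `ε ≤ sh (σ γ) ≤ dl x_i (mob (σ γ) x_i)` (hHY1 (2)) unless
`γ = 1`.  hPKG, hBLL: `J 4π s0 ≤ A0`, `R ≤ J + 1`: `dl 0 z' = sinh²(R/2) ≤ b`.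
Hypotheses: hSUB hMET hHY1 hBLL hPKG. -/
def StUCC : Prop := ∀ A0 ε : ℝ, 0 < ε → ∃ b : ℝ, 0 ≤ b ∧ ∀ (Γ : Type) [Group Γ] (σ : Γ →* SL)
  (F0 : Set ℂ), Fuch σ → FD σ F0 → (∫ z in F0, 4 / (1 - ‖z‖ ^ 2) ^ 2) ≤ A0 → Thick σ ε → Coc σ b

end Pool.Agent.Helper20.QP
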