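import Pool.Agent.Helper10.QP.M_CEN
import Pool.Agent.Helper10.QP.M_LSC
import Pool.Agent.Helper16.QP.M_HY1
import Pool.Agent.Helper16.QP.M_PIS
import Pool.Agent.Helper2.QP.M_TBD
import Pool.Agent.Helper20.QD.AsmB
import Pool.Agent.Helper21.QP.M_GBJ
import Pool.Agent.Helper27.QP.M_HY2
import Pool.Agent.Helper29.QP.M_MAC
import Pool.Agent.Helper32.QP.M_LSD
import Pool.Agent.Helper36.QP.M_ARC
import Pool.Agent.Helper38.QP.M_BLL
import Pool.Agent.Helper48.QP.M_COL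
import Pool.Agent.Helper5.QP.M_LSA
import Pool.Agent.Helper5.QP.M_ZAS
import Pool.Agent.Helper51.QP.M_QCC
import Pool.Agent.Helper52.QP.M_MET
import Pool.Agent.Helper54.QP.M_MUM
import Pool.Agent.Helper60.QP.M_GEN
import Pool.Agent.Helper62.QP.M_SEP
import Pool.Agent.Helper74.QP.M_SCE
import Pool.Agent.Helper87.QP.M_UCC
import Pool.Agent.Helper9.QP.M_MCA
import Pool.Agent.Helper94.QP.M_NCL
import Pool.Agent.Helper95.QP.M_PKG

/-!
# MP_d112a4_gt, project QD, part P: assembly of the closed statements of St1 and St2 (generated)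
-/

set_option autoImplicit false

namespace Pool.Agent.Helper20.QP

theorem pQP_MET : Pool.Agent.Helper20.QP.StMET :=
  Pool.Agent.Helper52.QP.hMET Pool.Agent.Helper20.QD.b_SUB

theorem pQP_HY1 : Pool.Agent.Helper20.QP.StHY1 :=
  Pool.Agent.Helper16.QP.hHY1 Pool.Agent.Helper20.QD.b_SUB

theorem pQP_BLL : Pool.Agent.Helper20.QP.StBLL :=
  Pool.Agent.Helper38.QP.hBLL Pool.Agent.Helper20.QD.b_SUB pQP_MET

theorem pQP_PKG : Pool.Agent.Helper20.QP.StPKG :=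
  Pool.Agent.Helper95.QP.hPKG Pool.Agent.Helper20.QD.b_SUB pQP_BLL

theorem pQP_UCC : Pool.Agent.Helper20.QP.StUCC :=
  Pool.Agent.Helper87.QP.hUCC Pool.Agent.Helper20.QD.b_SUB pQP_MET pQP_HY1 pQP_BLL pQP_PKG

theorem pQP_GEN : Pool.Agent.Helper20.QP.StGEN :=
  Pool.Agent.Helper60.QP.hGEN Pool.Agent.Helper20.QD.b_SUB pQP_MET

theorem pQP_MCA : Pool.Agent.Helper20.QP.StMCA :=
  Pool.Agent.Helper9.QP.hMCA Pool.Agent.Helper20.QD.b_SUB pQP_MET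

theorem pQP_MAC : Pool.Agent.Helper20.QP.StMAC :=
  Pool.Agent.Helper29.QP.hMAC Pool.Agent.Helper20.QD.b_SUB pQP_MET pQP_GEN pQP_MCA

theorem pQP_PIS : Pool.Agent.Helper20.QP.StPIS :=
  Pool.Agent.Helper16.QP.hPIS pQP_GEN pQP_MAC Pool.Agent.Helper62.QP.hSEP

theorem pQP_LSA : Pool.Agent.Helper20.QP.StLSA :=
  Pool.Agent.Helper5.QP.hLSA Pool.Agent.Helper20.QD.b_SUB

theorem pQP_LSC : Pool.Agent.Helper20.QP.StLSC :=
  Pool.Agent.Helper10.QP.hLSC pQP_LSA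

theorem pQP_LSD : Pool.Agent.Helper20.QP.StLSD :=
  Pool.Agent.Helper32.QP.hLSD Pool.Agent.Helper20.QD.b_SUB pQP_MET Pool.Agent.Helper62.QP.hSEP pQP_LSA pQP_LSC Pool.Agent.Helper21.QP.hGBJ

theorem pQP_QDFTF : Pool.Agent.Helper20.QP.StQDFTF :=
  Pool.Agent.Helper20.QD.b_FTF

theorem pQP_MUM : Pool.Agent.Helper20.QP.StMUM :=
  Pool.Agent.Helper54.QP.hMUM Pool.Agent.Helper20.QD.b_SUB pQP_UCC pQP_PIS Pool.Agent.Helper2.QP.hTBD pQP_LSD Pool.Agent.Helper51.QP.hQCC pQP_QDFTF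

theorem pQP_HY2 : Pool.Agent.Helper20.QP.StHY2 :=
  Pool.Agent.Helper27.QP.hHY2 Pool.Agent.Helper20.QD.b_SUB pQP_MET pQP_HY1

theorem pQP_SCE : Pool.Agent.Helper20.QP.StSCE :=
  Pool.Agent.Helper74.QP.hSCE Pool.Agent.Helper20.QD.b_SUB pQP_MET pQP_HY1

theorem pQP_ZAS : Pool.Agent.Helper20.QP.StZAS :=
  Pool.Agent.Helper5.QP.hZAS Pool.Agent.Helper20.QD.b_SUB pQP_MET pQP_HY2

theorem pQP_CEN : Pool.Agent.Helper20.QP.StCEN :=
  Pool.Agent.Helper10.QP.hCEN Pool.Agent.Helper20.QD.b_SUB pQP_HY2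

theorem pQP_COL : Pool.Agent.Helper20.QP.StCOL :=
  Pool.Agent.Helper48.QP.hCOL Pool.Agent.Helper20.QD.b_SUB pQP_MET pQP_ZAS pQP_CEN

theorem pQP_NCL : Pool.Agent.Helper20.QP.StNCL :=
  Pool.Agent.Helper94.QP.hNCL Pool.Agent.Helper20.QD.b_SUB pQP_HY2 pQP_SCE pQP_COL Pool.Agent.Helper36.QP.hARC pQP_PKG

theorem pQP_SEP : Pool.Agent.Helper20.QP.StSEP := Pool.Agent.Helper62.QP.hSEP

theorem pQP_TBD : Pool.Agent.Helper20.QP.StTBD := Pool.Agent.Helper2.QP.hTBD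

theorem pQP_ARC : Pool.Agent.Helper20.QP.StARC := Pool.Agent.Helper36.QP.hARC

theorem pQP_GBJ : Pool.Agent.Helper20.QP.StGBJ := Pool.Agent.Helper21.QP.hGBJ

theorem pQP_QCC : Pool.Agent.Helper20.QP.StQCC := Pool.Agent.Helper51.QP.hQCC

end Pool.Agent.Helper20.QP
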