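import Pool.Agent.Helper20.QP.Defs2
import Pool.Agent.Helper85.QT.St2

/-!
# Project QD (MP_d112a4_gt), PART P, statements 3: opening of one short curve

Setting: `StI σ κ k ρ` (end `X` inside the disc), `α` a primitive element with short axis, `q` its strip
coordinate (`SC`), `a = 64 + V` (margin), `h = π/l - 2a`; `ν` the `σ`-invariant coefficient which is `1` in the
coordinate `w` on the strip `Sab a (a+h)` and zero off its translates; `μ_t = κ + t ν`, `W_t = nq μ_t`.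
-/

set_option autoImplicit false

open Filter Topology Matrix Set Metric MeasureTheory
open scoped ComplexConjugate ENNReal

namespace Pool.Agent.Helper20.QP

open Pool.Agent.Helper35.PM (hs Mat SL IsDiscrete SurfaceGroup Adapted IsQF HolDisc pressureDist)
open Pool.Agent.Helper20.QD
open Pool.Agent.Helper68.QC (nq Bel InvB Intw Sol)
open Pool.Agent.Helper85.QT (HN Ann Cof Cls)

/-! ### aliases of statements of other parts (all of them have owners; use them as hypotheses) -/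

def StQEX : Prop := Pool.Agent.Helper68.QC.StEX
def StQFAC : Prop := Pool.Agent.Helper68.QC.StFAC
def StQUNI : Prop := Pool.Agent.Helper68.QC.StUNI
def StQCNF : Prop := Pool.Agent.Helper68.QC.StCNF
def StQCVM : Prop := Pool.Agent.Helper68.QC.StCVM
def StQNUL : Prop := Pool.Agent.Helper68.QC.StNUL
def StQCMP : Prop := Pool.Agent.Helper68.QC.StCMP
def StQINV : Prop := Pool.Agent.Helper68.QC.StINV
def StQEQV : Prop := Pool.Agent.Helper68.QC.StEQV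
def StQREP : Prop := Pool.Agent.Helper68.QC.StREP
def StQSYC : Prop := Pool.Agent.Helper68.QC.StSYC
def StQPRE : Prop := Pool.Agent.Helper68.QC.StPRE
def StQPOS : Prop := Pool.Agent.Helper68.QC.StPOS
def StQITW : Prop := Pool.Agent.Helper68.QC.StITW
def StQUNW : Prop := Pool.Agent.Helper68.QC.StUNW
def StGINC : Prop := Pool.Agent.Helper17.QD.StINC
def StGQFS : Prop := Pool.Agent.Helper17.QD.StQFS
def StATGO : Prop := Pool.Agent.Helper86.QA.StTGO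
def StATQF : Prop := Pool.Agent.Helper86.QA.StTQF
def StAKDG : Prop := Pool.Agent.Helper86.QA.StKDG
def StATFR : Prop := Pool.Agent.Helper86.QA.StTFR
def StTHN2 : Prop := Pool.Agent.Helper85.QT.StHN2
def StTHN3 : Prop := Pool.Agent.Helper85.QT.StHN3
def StQDFCO : Prop := Pool.Agent.Helper20.QD.StFCO
def StQDFSU : Prop := Pool.Agent.Helper20.QD.StFSU
def StQDLLA : Prop := Pool.Agent.Helper20.QD.StLLA
def StQDLQC : Prop := Pool.Agent.Helper20.QD.StLQC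
def StQDLFR : Prop := Pool.Agent.Helper20.QD.StLFR
def StQDWOU : Prop := Pool.Agent.Helper20.QD.StWOU

/-- NUG (about 200 lines)
(The invariant coefficient which is constant in the coordinate of an annulus.)
Proof. `U = f '' Sm m` is open (`f` injective holomorphic: open mapping), `deriv f ≠ 0` on `Sm m` (QD: `StRIJ`, or
Mathlib for injective holomorphic maps).  For `γ ∈ Γ`, `w ∈ Sm m`, `g(z) = (den (r γ) z)⁻²` the derivative of `mob (r γ)`,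
put `c γ w = μ0 (f'(w)/conj f'(w)) (g(f w)/conj g(f w))`.  If `mob (r γ) (f w) = mob (r δ) (f w')` then
`mob (r (γ⁻¹ δ)) (f w') = f w` (cocycle rule, denominators do not vanish on `A`), so `γ⁻¹ δ = α^n` by disjointness,
`f w = mob (r α^n) (f w') = f (w' + n)` (iterate, also for negative `n`), `w = w' + n`; differentiating
`f (w'+n) = mob (r α^n) (f w')` gives `c γ w = c δ w'`.  Hence `μ ξ = c γ w` for `ξ = mob (r γ) (f w)` (choice), `0` if `ξ` is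
in no translate of `U`, is well defined.  Measurable: on each of the countably many open sets
`mob (r γ) '' U` it is the continuous function `c γ (f⁻¹ (mob (r γ)⁻¹ ξ))`.  Modulus `‖μ0‖` on the translates.
Invariance: chain rule.
Hypotheses: none. -/
def StNUG : Prop := ∀ (Γ : Type) [Group Γ] [Countable Γ] (r : Γ →* SL) (A : Set ℂ) (α : Γ)
  (f : ℂ → ℂ) (m : ℝ) (μ0 : ℂ), IsOpen A →
  (∀ γ, ∀ ξ ∈ A, den (r γ) ξ ≠ 0 ∧ mob (r γ) ξ ∈ A) → 0 < m → DifferentiableOn ℂ f (Sm m) →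
  InjOn f (Sm m) → MapsTo f (Sm m) A → (∀ w ∈ Sm m, f (w + 1) = mob (r α) (f w)) →
  (∀ γ : Γ, (∀ n : ℤ, γ ≠ α ^ n) → Disjoint (mob (r γ) '' (f '' Sm m)) (f '' Sm m)) →
  ∃ μ : ℂ → ℂ, Measurable μ ∧ (∀ ξ, ‖μ ξ‖ ≤ ‖μ0‖) ∧
    (∀ γ, ∀ ξ ∈ A, μ (mob (r γ) ξ) * conj ((den (r γ) ξ ^ 2)⁻¹) = μ ξ * (den (r γ) ξ ^ 2)⁻¹) ∧
    (∀ ξ, (∀ γ : Γ, ξ ∉ mob (r γ) '' (f '' Sm m)) → μ ξ = 0) ∧
    (∀ w ∈ Sm m, μ (f w) * conj (deriv f w) = μ0 * deriv f w) ∧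
    ∀ γ, ∀ w ∈ Sm m, ‖μ (mob (r γ) (f w))‖ = ‖μ0‖

/-- FAM (about 150 lines)
(The holomorphic family.)
Proof. `m t z = κ z + t ν z`; at most one of the two terms is nonzero, so `Bel (max k ‖t‖) (m t)`; affine in `t`;
invariant (`InvB` is linear).  For `0 < r < 1`: hQREP with `c = 0`, radius `r`, constant `max k r < 1`,
`m 0 = κ`, gives `R_r` on `ball 0 r` with `R_r 0 = ρ`.  For `r < r'` and `t ∈ ball 0 r`: `R_r t γ = ± R_r' t γ` (hQITW (1)); the sets of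
`t` where the sign is `+`, `-` are closed in the ball (continuity), disjoint, cover it, the first contains
`0`: by connectedness `R_r = R_r'` on `ball 0 r`.  Put `R t = R_((1+‖t‖)/2) t` for `‖t‖ < 1` (locally equal to a fixed
`R_r`), `R t = ρ` otherwise.
Hypotheses: hQREP hQITW. -/
def StFAM : Prop := ∀ (Γ : Type) [Group Γ] (σ ρ : Γ →* SL) (κ ν : ℂ → ℂ) (k : ℝ), StI σ κ k ρ →
  Measurable ν → (∀ z, ‖ν z‖ ≤ 1) → (∀ z : ℂ, 1 ≤ ‖z‖ → ν z = 0) → (∀ γ, InvB (σ γ) ν) →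
  ∃ R : ℂ → Γ →* SL, R 0 = ρ ∧
    (∀ γ i j, DifferentiableOn ℂ (fun t => (R t γ : Mat) i j) (ball 0 1)) ∧
    ∀ t ∈ ball (0 : ℂ) 1, ∀ γ, Intw (σ γ) (R t γ) (nq (fun z => κ z + t * ν z))

/-- BCH (about 300 lines)
(Change of base.)
Proof. (1) `μs z = τ z` for `‖z‖ < 1`, `μs z = conj (τ (1/conj z)) z²/conj z²` for `‖z‖ > 1`, `0` on the circle: `Bel k1 μs`, the
symmetry of hQSYC holds, `InvB (σ γ) μs` (`A ∈ SU(1,1)` commutes with `z ↦ 1/conj z`; differentiate).  `H = nq μs`: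
`H (1/conj z) = 1/conj (H z)`, so `‖z‖ = 1 ↔ ‖H z‖ = 1` and, `H 0 = 0`, connectedness: `‖z‖ < 1 ↔ ‖H z‖ < 1`.
(2) hQREP for the family `t ↦ (t c) μs`, `c = (1+k1)/2`-trick: on `ball 0 1` take `m t = t μs/c` with `c = (1+k1)/2 > k1`,
`Bel (k1/c) (m t)`, `m c = μs`, `m 0 = 0`, `nq 0 = id` (hQUNI), start `σ`: a homomorphism `σ'` with `Intw (σ γ) (σ' γ) H`.
`σ' γ` maps `D` onto `D` (`mob (σ' γ) (H z) = H (mob (σ γ) z)`), so it is in `SU(1,1)` (a matrix `!![a,b;c,d]` of determinant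
one whose Moebius map preserves `D`: it commutes with the reflection in the circle, so
`d = ± conj a, c = ± conj b` with the same sign, and the sign is `+` since it preserves the inside).  `Fuch σ'`:
cocompact: `H (closedBall 0 r)` is a compact subset of `D`; discrete: `hs (σ' γ) ≤ X` bounds `‖mob (σ' γ) 0‖ ≤ r < 1`, so
`mob (σ γ) 0 = H⁻¹ (mob (σ' γ) 0)` is in a compact subset of `D`, `hs (σ γ)` is bounded (hMET (5)).
(3) hQCMP for `κ + τ` and `μs`, `δ = 2K/(1+K²)`, `K = max k k1` (`‖a-b‖ ≤ δ‖1 - conj b a‖` if `‖a‖, ‖b‖ ≤ K`): `ν'` with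
`nq (κ+τ) = nq ν' ∘ H`; for a.e. `z ∈ D` the two coefficients agree, so `ν' (H z) = 0`; null sets (hQNUL): `ν' = 0` a.e. on
`D`, and on the circle (null set).  `κ' = ν'` for `‖z‖ > 1`, else `0`: `nq κ' = nq ν'` (hQEX, hQUNI: `Sol` only depends on the
a.e. class).  `Intw (σ' γ) (ρ' γ) (nq κ')` from `Intw (σ γ) (σ' γ) H` and `Intw (σ γ) (ρ' γ) (nq κ' ∘ H)` (four clauses), and
`InvB (σ' γ) κ'` by hGINC.
Hypotheses: hSUB hMET hQEX hQUNI hQCMP hQNUL hQREP hQSYC hGINC. -/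
def StBCH : Prop := ∀ (Γ : Type) [Group Γ] (σ ρ ρ' : Γ →* SL) (κ τ : ℂ → ℂ) (k k1 : ℝ),
  StI σ κ k ρ → 0 ≤ k1 → k1 < 1 → Bel k1 τ → (∀ z : ℂ, 1 ≤ ‖z‖ → τ z = 0) → (∀ γ, InvB (σ γ) τ) →
  (∀ γ, Intw (σ γ) (ρ' γ) (nq (fun z => κ z + τ z))) →
  ∃ (μs κ' : ℂ → ℂ) (k' : ℝ) (σ' : Γ →* SL), Bel k1 μs ∧ (∀ z : ℂ, ‖z‖ < 1 → μs z = τ z) ∧
    (∀ γ, InvB (σ γ) μs) ∧ (∀ z, ‖nq μs z‖ < 1 ↔ ‖z‖ < 1) ∧ (∀ z, ‖nq μs z‖ = 1 ↔ ‖z‖ = 1) ∧
    (∀ γ, Intw (σ γ) (σ' γ) (nq μs)) ∧ StI σ' κ' k' ρ' ∧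
    ∀ z, nq (fun z => κ z + τ z) z = nq κ' (nq μs z)

/-- LEQ (about 200 lines)
(The piecewise affine stretch is the normalised solution.)
Proof. `LE t a h (x + i y) = x + g y` with `g : ℝ → ℂ` continuous and piecewise linear: `g y = i y` for `y ≤ a`,
`i a + i (y-a) (1-t)/(1+t)` for `a ≤ y ≤ a + h`, slope `i` above.  It is a homeomorphism of the plane (`Im g` is strictly
increasing, `hf t > 0`), fixes `0` and `1` (`0 ≤ a`).  Weak derivatives on the plane: `∂_x = 1`, `∂_y = g'(y)` (integration by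
parts on vertical lines for the piecewise `C^1` function `g`, Fubini), so `dz = (1 - i g')/2`, `dzb = (1 + i g')/2`:
off the strip `1, 0`, in the strip `g' = i(1-t)/(1+t)`: `dz = 1/(1+t)`, `dzb = t/(1+t)`, quotient `t`.  So `Sol` holds on
the plane with the coefficient `t` in the strip, `0` elsewhere (the two lines are null sets): hQUNI.  The
same with constant coefficient `t` on the whole plane and the real linear map `LT t` (last claim).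
Hypotheses: hQUNI. -/
def StLEQ : Prop := ∀ (t : ℂ) (a h : ℝ), ‖t‖ < 1 → 0 ≤ a → 0 < h →
  (∀ z, nq (fun w : ℂ => if a < w.im ∧ w.im < a + h then t else 0) z = LE t a h z) ∧
  (∀ z, nq (fun _ : ℂ => t) z = LT t z) ∧
  (∀ w : ℂ, (LT t w).im = w.im * hf t) ∧ 0 < hf t ∧
  (∀ w : ℂ, LE t a h (w + 1) = LE t a h w + 1) ∧
  (∀ b c : ℝ, b ≤ a → a + h ≤ c → LE t a h '' Sab b c = Sab b (c - h + h * hf t)) ∧
  LE t a h '' Sab a (a + h) = Sab a (a + h * hf t)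

/-- STM (about 250 lines)
(The map of strips.)  `M = π/l`, `h = M - 2a`.
Proof. `ψ = q'⁻¹ ∘ H ∘ q`, `H = nq μs`: defined and continuous on `Sm M` with values in `Sm (π/l')` (`q'` is a homeomorphism
onto `D`: injective holomorphic), injective, `ψ (w+1) = ψ w + 1` (`SC.per`, `Intw`, injectivity of `q'`).
`H` solves the equation with coefficient `μs` (hQEX) on `D`, so by hQPRE (`φ = q`) `H ∘ q` solves on
`Sab b (M-b)` the equation with coefficient `μs (q w) conj (q' w)/q' w` `= t` on `Sab a (a+h)`, `0` on the rest (a.e.).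
By hLEQ and hQFAC `F ζ = H (q (LE t a h)⁻¹ ζ)` is holomorphic on the image `Sab b (M - b - h + h hf t)` (hLEQ), with
values in `D`; `φ ζ = q'⁻¹ (F (ζ + b i))` is holomorphic on `Sm (h hf t + 2(a-b))`, injective, periodic (hLEQ).
Hypotheses: hSUB hLEQ hQEX hQFAC hQPRE. -/
def StSTM : Prop := ∀ (A A' : SL) (l l' a b k1 : ℝ) (q q' μs : ℂ → ℂ) (t : ℂ), IsSU A → IsSU A' →
  SC A l q → SC A' l' q' → Bel k1 μs → k1 < 1 → Intw A A' (nq μs) →
  (∀ z, ‖nq μs z‖ < 1 ↔ ‖z‖ < 1) → 0 < b → b < a → 0 < Real.pi / l - 2 * a → ‖t‖ < 1 →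
  (∀ w ∈ Sab b (Real.pi / l - b), μs (q w) * conj (deriv q w) =
    (if a < w.im ∧ w.im < Real.pi / l - a then t else 0) * deriv q w) →
  ∃ φ : ℂ → ℂ, HN ((Real.pi / l - 2 * a) * hf t + 2 * (a - b)) φ ∧
    MapsTo φ (Sm ((Real.pi / l - 2 * a) * hf t + 2 * (a - b))) (Sm (Real.pi / l')) ∧
    ∀ w ∈ Sab b (Real.pi / l - b),
      nq μs (q w) = q' (φ (LE t a (Real.pi / l - 2 * a) w - b * Complex.I))

/-- CFI (about 200 lines)
(The inverse is conformal off the translates of the closed annulus.)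
Proof. `S = {w | a ≤ Im w ≤ M - a}`, `M = π/l`, `X0 = ⋃_γ mob (σ γ) '' (q '' S)`.  `X0` is closed in `D`: `q '' S` is the union of the
translates by powers of `α` of the compact set `q '' {w ∈ S, 0 ≤ Re w ≤ 1} ⊆ D`, so `X0` is the union over `γ ∈ Γ` of the
translates of a compact subset `K` of `D`; locally finite: if `mob (σ γ_n) x_n → z ∈ D` with `x_n ∈ K` then `hs (σ γ_n)` is
bounded (hMET: `hd 0 (mob (σ γ_n) 0) ≤ hd 0 (mob (σ γ_n) x_n) + hd x_n 0`), finitely many `γ_n`; a finite union of compact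
sets is closed.  `μs = 0` on the open set `O = D ∖ X0`, so `nq μs` is holomorphic (hQCNF) and injective on `O`, its
inverse is holomorphic on the image, which is `D ∖ X0'`.
Hypotheses: hSUB hMET hQCNF. -/
def StCFI : Prop := ∀ (Γ : Type) [Group Γ] (σ σ' : Γ →* SL) (α : Γ) (l a k1 : ℝ) (q μs : ℂ → ℂ),
  Fuch σ → SC (σ α) l q → 0 < a → Bel k1 μs → k1 < 1 → (∀ γ, Intw (σ γ) (σ' γ) (nq μs)) →
  (∀ z, ‖nq μs z‖ < 1 ↔ ‖z‖ < 1) →
  (∀ z ∈ D, (∀ γ, z ∉ mob (σ γ) '' (q '' {w | a ≤ w.im ∧ w.im ≤ Real.pi / l - a})) → μs z = 0) →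
  DifferentiableOn ℂ (nq μs).symm (D \ ⋃ γ : Γ, mob (σ' γ) '' (nq μs ''
    (q '' {w | a ≤ w.im ∧ w.im ≤ Real.pi / l - a})))

/-- FUL (about 350 lines)
(Fullness.)  `M = π/l`, `M' = π/l'`, `a = 64 + V`, `h = M - 2a`.
Proof. Let `C ≥ 1` be the constant of hTHN2 (the bound of `‖f w - w - κ‖`), `V = 67 + 2C`, `C3 = 128 + 2C + 2(64+V)`.
`φ` on the strip of height `m1 = h hf t + 2V ≥ 4`: `κ` with `|Im φ w - Im w - Im κ| ≤ C` where `2 ≤ Im w ≤ m1 - 2`.  `Im φ > 0` at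
`w = 2i`: `Im κ > -2 - C`; `Im φ < M'` at `w = (m1-2) i`: `Im κ < M' - m1 + 2 + C`.  So for `V ≤ Im w ≤ V + h hf t`:
`Im φ w ≥ V + Im κ - C > V - 2 - 2C = 65` and `Im φ w ≤ V + h hf t + Im κ + C < M' - V + 2 + 2C = M' - 65`: last claim.
`m1 ≤ M'` (hTHN3 (2)), `M' ≥ 2V ≥ 134`, `l' ≤ 1`.  Let `b1 = V + Im κ - C > 64`, `b2 = V + h hf t + Im κ + C < M' - 64`,
`R1 = Sab 64 b1`, `R2 = Sab b2 (M'-64)`.  They are disjoint from `φ '' {V ≤ Im ≤ V + h hf t}`, which contains, by the relation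
between `q, q', φ` (and `LE`), `q'⁻¹ (H '' (q '' S))`, `S = {a ≤ Im w ≤ M - a}`, `H = nq μs`.  Claim: `q' '' R_i` is disjoint
from `X0' = ⋃_γ mob (σ' γ) '' (H '' (q '' S))`: for `γ` a power of `α` this is what we just said (`q'` injective, everything
invariant under the unit translation); for the other `γ` both `H '' (q '' S)` and `q' '' R_i` are contained in the collar
`q' '' Sab 64 (M'-64)` and hCOL (1) for `σ'` applies.  So `ψ_i = q⁻¹ ∘ H⁻¹ ∘ q'` is holomorphic on `R_i` (assumption on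
`(nq μs).symm`), injective, with values in `Sm M`, `ψ_i (w+1) = ψ_i w + 1`.  The images `ψ_1 R1`, `ψ_2 R2` and `Sab a (M-a)` are
pairwise disjoint subsets of `Sm M` invariant under the unit translation.  hTHN3 (1) (shifted strips):
`volume (ψ_i '' {w ∈ R_i, 0 < Re w < 1}) ≥` height of `R_i`; the sets `ψ_1 '' {..}`, `ψ_2 '' {..}`, `{w ∈ Sab a (M-a), 0 < Re w < 1}`
and all their integer translates are pairwise disjoint in `Sm M`, so the sum of the three volumes is at most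
`M` (as in hTHN3 (2): `|P| = ∑_n |(P - n) ∩ {0 ≤ Re < 1}|`).  So `(b1 - 64) + (M' - 64 - b2) + (M - 2a) ≤ M`, i.e.
`M' ≤ 128 + (b2 - b1) + 2a = h hf t + C3`.
Hypotheses: hSUB hCOL hTHN2 hTHN3. -/
def StFUL : Prop := ∃ V C3 : ℝ, 1 ≤ V ∧ 0 ≤ C3 ∧ ∀ (Γ : Type) [Group Γ] (σ σ' : Γ →* SL) (α : Γ)
  (l l' k1 : ℝ) (q q' μs φ : ℂ → ℂ) (t : ℂ), TF Γ → Fuch σ → Fuch σ' → Prim α → SC (σ α) l q →
  SC (σ' α) l' q' → l ≤ 1 → 0 < Real.pi / l - 2 * (64 + V) → ‖t‖ < 1 → Bel k1 μs → k1 < 1 →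
  (∀ γ, Intw (σ γ) (σ' γ) (nq μs)) → (∀ z, ‖nq μs z‖ < 1 ↔ ‖z‖ < 1) →
  DifferentiableOn ℂ (nq μs).symm (D \ ⋃ γ : Γ, mob (σ' γ) '' (nq μs ''
    (q '' {w | 64 + V ≤ w.im ∧ w.im ≤ Real.pi / l - (64 + V)}))) →
  HN ((Real.pi / l - 2 * (64 + V)) * hf t + 2 * V) φ →
  MapsTo φ (Sm ((Real.pi / l - 2 * (64 + V)) * hf t + 2 * V)) (Sm (Real.pi / l')) →
  (∀ w ∈ Sab 64 (Real.pi / l - 64), nq μs (q w) =
    q' (φ (LE t (64 + V) (Real.pi / l - 2 * (64 + V)) w - 64 * Complex.I))) →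
  Real.pi / l' ≤ (Real.pi / l - 2 * (64 + V)) * hf t + C3 ∧ l' ≤ 1 ∧
    ∀ w : ℂ, V ≤ w.im → w.im ≤ V + (Real.pi / l - 2 * (64 + V)) * hf t →
      64 < (φ w).im ∧ (φ w).im < Real.pi / l' - 64

/-- LNG (about 200 lines)
(The other lengths.)
Proof. `H = nq μs`, `X0'` as in hFUL; by assumption `H '' (q '' S) ⊆ q' '' Sab 64 (π/l' - 64)` (`S` the closed strip).  hCOL (2) for
`σ'` and the pair `α, β`, `l', l1' ≤ 1`: `q1' '' Sab 64 (π/l1' - 64)` is disjoint from all translates of the collar of `α`,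
hence from `X0'`.  So `ψ ζ = q1⁻¹ (H⁻¹ (q1' (ζ + 64 i)))` is holomorphic on `Sm (π/l1' - 128)`, injective, with values in
`Sm (π/l1)`, `ψ (ζ+1) = ψ ζ + 1` (`Intw (σ β) (σ' β) H`).  hTHN3 (2): `π/l1' - 128 ≤ π/l1` (`π/l1' - 128 > 0` as
`l1' ≤ 1/82`), and `128 ≤ π/(2 l1')`, so `l1 ≤ 2 l1'`.
Hypotheses: hSUB hCOL hTHN3. -/
def StLNG : Prop := ∀ (Γ : Type) [Group Γ] (σ σ' : Γ →* SL) (α β : Γ)
  (l l' l1 l1' k1 a : ℝ) (q q' q1 q1' μs : ℂ → ℂ), TF Γ → Fuch σ → Fuch σ' → Prim α → Prim β →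
  ¬ Cj α β → SC (σ α) l q → SC (σ' α) l' q' → SC (σ β) l1 q1 → SC (σ' β) l1' q1' → l' ≤ 1 →
  l1' ≤ 1 / 82 → Bel k1 μs → k1 < 1 → (∀ γ, Intw (σ γ) (σ' γ) (nq μs)) →
  (∀ z, ‖nq μs z‖ < 1 ↔ ‖z‖ < 1) →
  DifferentiableOn ℂ (nq μs).symm (D \ ⋃ γ : Γ, mob (σ' γ) '' (nq μs ''
    (q '' {w | a ≤ w.im ∧ w.im ≤ Real.pi / l - a}))) →
  nq μs '' (q '' {w | a ≤ w.im ∧ w.im ≤ Real.pi / l - a}) ⊆ q' '' Sab 64 (Real.pi / l' - 64) →
  l1 ≤ 2 * l1'

/-- CRD (about 400 lines)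
(The annulus in the normalisation of the tube theorem.)  `M' = π/l'`, `w1 = nq κ'`.
NOTE: `Pool/Agent/Helper86/QA/KDP.lean`, theorem `kd_pack` (helper86), gives for `Good ρ'` and `p = w1 ζ+`,
`q = w1 ζ-` the matrix `C`, `KD`, the conformal maps `CF` of both domains and their areas (`Areas`); for the inside
`OneSide ρ' σ' w1`, for the outside QD.StWOU; the area of every Fuchsian group is at most `a0` by assumption.
Proof. `TM σ' ρ' w1` (hATGO: `Intw` contains its clauses), so `Good ρ'`, `Lam ρ' = w1 '' SS`, `inn = w1 '' D`,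
`out = w1 '' {‖z‖ > 1}`; `ρ'` is faithful modulo `±1` (hATQF with hHY2 (1)).  `σ' α` is hyperbolic with two fixed points
on the circle: `q' (w + n)` tends to `ζ+ ∈ SS` for `n → ∞` and to `ζ- ∈ SS` for `n → -∞` (powers of a hyperbolic element of
`SU(1,1)`), `ζ+ ≠ ζ-`.  `p = w1 ζ+ ∈ Lam ρ'`.  hAKDG: `KD (cj (gi p) ρ') (sA ρ' p) (sB ρ' p)`, `sB = mi p '' inn`,
`mi p z = -1/(z-p) = mob (gi p) z`.  Let `T = !![1, -e; 0, 1]`, `e = mi p (w1 ζ-)`, `C = T * gi p`, `r = cj C ρ'`,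
`A = mob C '' (w1 '' D)`, `B = ` the translate of `sA`; `KD r A B` (translation of all data, exchange of the two
domains; `den` and `mob` of `T` are trivial).  `r α` fixes `0` (`w1 ζ-` is fixed by `ρ' α`) and `∞`: diagonal.  `F w = mob C (w1 (q' w))`
on `Sm M'`: holomorphic (`w1` is holomorphic on `D`: hQCNF), injective, onto `A`, never `0` (`0 ∉ A`: it is the image
of `ζ-`), so it has a holomorphic logarithm `Lg` on the convex set `Sm M'`; `F (w+1) = mob (r α) (F w) = μ F w`,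
`μ = (r α) 0 0/(r α) 1 1`, so `Lg (w+1) - Lg w = lam` is constant with `exp lam = μ`.  `F (w+n) = exp (n lam) F w → ∞` for `n → ∞`
(`q' (w+n) → ζ+`, `mob C (w1 ·) → ∞`), so `Re lam > 0`.  `G = Lg/lam`: `G (w+1) = G w + 1`, `exp (lam G w) = F w`: fields `re, dg,
mu, Gh, G1, Gb`.  `st`: if `r γ` is diagonal it commutes with `r α`, `r (γ α γ⁻¹ α⁻¹) = 1`, so `γ α = α γ` and `γ = α^n`
(`Prim`); if it is antidiagonal then `r (γ α γ⁻¹) = r α⁻¹`, `γ α γ⁻¹ = α⁻¹`, hCEN (2): `γ` commutes with `α`.  `m1, ph, pm, pi, p1, fu` are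
assumptions (`HN m1 φ1`).  `dj`: `F '' (φ1 '' Sm m1) ⊆ F '' Sab 64 (M'-64) = mob C (w1 (collar))`, and `mb (r γ)` of it is
`mob C (w1 (mob (σ' γ) (collar)))`: disjoint by hCOL (1) (`l' ≤ 1`) and injectivity.  `Cls`: let `ξ_n ∈ EE lam G φ1 0 m1` tend to
`a' ∈ LS A B`, `ξ_n = mob C (w1 z_n)`, `z_n = q' w_n`, `w_n ∈ Sab 64 (M' - 64)`; subsequence `z_n → z ∈ DD`, `w1 z` is not the pole
of `C` and `a' = mob C (w1 z)`, so `z ∈ SS` (`a'` is not in `A`).  By `SC.dst` `dl z_n (mob (σ' α) z_n) = sinh²(l'/2)/sin²(l' Im w_n)` is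
bounded, so `‖z_n - mob (σ' α) z_n‖ → 0`, `z` is a fixed point of `σ' α`, `z = ζ-` (not `ζ+` since `w1 ζ+ = p` is the pole), `a' = 0`.
Hypotheses: hSUB hMET hHY2 hCEN hCOL hATGO hATQF hAKDG hQCNF hQDWOU. -/
def StCRD : Prop := ∀ (Γ : Type) [Group Γ] (σ' ρ' : Γ →* SL) (κ' : ℂ → ℂ) (k' l' m1 C3 a0 : ℝ)
  (α : Γ) (q' φ1 : ℂ → ℂ), TF Γ → (∀ τ : Γ →* SL, Fuch τ → ∃ F0 : Set ℂ, FD τ F0 ∧
    (∫ z in F0, 4 / (1 - ‖z‖ ^ 2) ^ 2) ≤ a0) →
  StI σ' κ' k' ρ' → Prim α → SC (σ' α) l' q' → l' ≤ 1 → 1 ≤ m1 →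
  HN m1 φ1 → MapsTo φ1 (Sm m1) (Sab 64 (Real.pi / l' - 64)) → Real.pi / l' ≤ m1 + C3 →
  ∃ (r : Γ →* SL) (C : SL) (A B : Set ℂ) (lam : ℂ) (G : ℂ → ℂ),
    (∀ γ, r γ = C * ρ' γ * C⁻¹) ∧ Ann r A B α lam (Real.pi / l') G m1 φ1 C3 ∧ Areas r A B a0 ∧
    Cls A B lam G φ1 m1 ∧ A = mob C '' (nq κ' '' D) ∧ (∀ z ∈ D, den C (nq κ' z) ≠ 0) ∧
    ∀ w ∈ Sm (Real.pi / l'), Complex.exp (lam * G w) = mob C (nq κ' (q' w))

/-- MBC (about 250 lines)
(Change of normalisation by a Moebius map of the sphere.)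
Proof. `w = nq μ`.  `μ' y = μ (mob C⁻¹ y) (den C⁻¹ y)² / conj (den C⁻¹ y)²` where `den C⁻¹ y ≠ 0`, else `0`: measurable, bounded by `k`,
and the a.e. relation by `den C⁻¹ (mob C z) den C z = 1`.  CASE `C 1 0 = 0`: `mob C` is affine; `f y = w (mob C⁻¹ y)` solves the
equation with `μ'` (hQPRE), `w' = (f - f 0)/(f 1 - f 0) = nq μ'` (hQUNI); `C'` the matrix of `x ↦ (x - f 0)/(f 1 - f 0)`.
CASE `C 1 0 ≠ 0`: `e = - C 1 1/C 1 0` the pole, `p = C 0 0/C 1 0`; `f y = 1/(w (mob C⁻¹ y) - w e)` for `y ≠ p`, `f p = 0`: a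
homeomorphism of the plane (`mob C⁻¹` is a homeomorphism of `{p}ᶜ` onto `{e}ᶜ`; `f → 0` at `p`, `f → ∞` at infinity), solves
the equation with `μ'` on `{p}ᶜ` (hQPRE, hQPOS), normalise as before, hQUNI with `S = {p}`.  (Compare
`Pool/Agent/Helper68/QC/St4.lean`, EQX, and helper17's NBC.)  In both cases `nq μ' (mob C z) = mob C' (w z)` for
`den C z ≠ 0`, and `C'` maps `w e` to `∞`, `∞` to `nq μ' p`.  `Intw`: the maps `w` and `nq μ'` extended by `∞ ↦ ∞` satisfy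
`nq μ' ∘ C = C' ∘ w` on the sphere, so `nq μ' ∘ (C X C⁻¹) = (C' Y C'⁻¹) ∘ nq μ'` on the sphere; the four clauses of
`Intw` say exactly this.
Hypotheses: hQEX hQUNI hQPRE hQPOS. -/
def StMBC : Prop := ∀ k : ℝ, k < 1 → ∀ μ : ℂ → ℂ, Bel k μ → ∀ C : SL, ∃ (μ' : ℂ → ℂ) (C' : SL),
  Bel k μ' ∧ (∀ᵐ z : ℂ, μ' (mob C z) * den C z ^ 2 = μ z * conj (den C z) ^ 2) ∧
  (∀ z, den C z ≠ 0 → den C' (nq μ z) ≠ 0 ∧ nq μ' (mob C z) = mob C' (nq μ z)) ∧
  ∀ X Y : SL, Intw X Y (nq μ) → Intw (C * X * C⁻¹) (C' * Y * C'⁻¹) (nq μ')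

/-- EXC (about 400 lines)
(At every point of the disc the family is the linear family of the coefficient which is constant in
the coordinate of the annulus.)  `μ_t = κ + t ν`, `W_t = nq μ_t`, `t' = (s+t)/(1 + conj t s)`, so `s = (t'-t)/(1 - conj t t')`.
Proof. (1) hQCMP for `μ_t'` and `μ_t` (both `Bel K`, `K = max k ‖t‖ ‖t'‖ < 1`, `δ = 2K/(1+K²)`): `Bel δ ν1`, `W_t' = nq ν1 ∘ W_t`, and
`ν1 (W_t z) = 0` for a.e. `z` where `ν z = 0`.  (2) core: on `Sab a (a+h)` the map `W_t' ∘ q` solves the equation with constant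
coefficient `t'` (hQPRE, hQEX, the assumption on `ν ∘ q`; `κ = 0` in `D`), so by hLEQ and hQFAC
`W_t' (q ω) = F (LT t' (ω - a i))`, `F` holomorphic on the strip `LT t' '' Sm h`, injective.  Let `g ζ = W_t (q ω)`,
`ζ = LT t (ω - a i) ∈ Sm (h hf t)`: `g` is holomorphic and injective (the same with `t`), and `mob C (g ζ) = f ζ`.
`nq ν1 (g ζ) = F (LT t' (LT t)⁻¹ ζ)`; the real linear map `LT t' ∘ (LT t)⁻¹` has `dzb/dz = s μ0`, `μ0 = (1 + conj t)/(1+t)`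
(composition rule: with `dz LT t = 1/(1+t)`, `dzb LT t = t/(1+t)` one gets `(t'-t)/(1 - conj t t') * (1 + conj t)/(1 + t)`),
so classically `dzb (nq ν1 ∘ g) = s μ0 dz (nq ν1 ∘ g)`, `dz ≠ 0`.  On the other hand `nq ν1 ∘ g` solves weakly the equation
with coefficient `ν1 (g ζ) conj (g' ζ)/g' ζ` (hQPRE); weak derivatives are unique a.e. (hQUNW): `ν1 (g ζ) conj (g' ζ) = s μ0 g' ζ`
for a.e. `ζ`.  (3) hMBC for `ν1` and `C`: `ν2`, `C'`, `Intw (C X C⁻¹) (C' Y C'⁻¹) (nq ν2)` whenever `Intw X Y (nq ν1)`;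
`Intw (R t γ) (R t' γ) (nq ν1)` (from the `Intw` of `W_t` and `W_t' = nq ν1 ∘ W_t`).  So it remains to see `ν2 = s μ` a.e.
(then `nq ν2 = nq (s μ)`: hQEX, hQUNI).  (4) `ν2 (mob C y) den² = ν1 y conj den²` a.e.  On `f '' Sm (h hf t)`: by (2) and the
assumption `aff` on `μ` they agree a.e. (`f = mob C ∘ g`, `f' = (den C g)⁻² g'`).  `ν2` is invariant a.e. under `r γ` (hGINC), `μ`
is invariant, so they agree a.e. on the translates.  Outside: `mob C (W_t z)` with `z` not in the translates of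
`q '' Sab a (a+h)`: `ν1 (W_t z) = 0` for a.e. such `z` (`ν z = 0`), null sets are preserved (hQNUL for `W_t`), and `μ = 0` there
by assumption (a point of a translate of `f '' Sm` is `mob C (W_t z)` with `z` in a translate of `q '' Sab a (a+h)`).
Hypotheses: hSUB hMBC hLEQ hQEX hQUNI hQFAC hQPRE hQCMP hQNUL hQUNW hGINC. -/
def StEXC : Prop := ∀ (Γ : Type) [Group Γ] [Countable Γ] (σ ρ : Γ →* SL) (κ ν : ℂ → ℂ) (k a h : ℝ)
  (q : ℂ → ℂ) (R : ℂ → Γ →* SL) (t : ℂ) (r : Γ →* SL) (C : SL) (f μ : ℂ → ℂ), StI σ κ k ρ →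
  Measurable ν → (∀ z, ‖ν z‖ ≤ 1) → (∀ z : ℂ, 1 ≤ ‖z‖ → ν z = 0) → (∀ γ, InvB (σ γ) ν) →
  0 < h → DifferentiableOn ℂ q (Sab a (a + h)) → InjOn q (Sab a (a + h)) →
  MapsTo q (Sab a (a + h)) D →
  (∀ w ∈ Sab a (a + h), ν (q w) * conj (deriv q w) = deriv q w) →
  (∀ z, (∀ γ : Γ, z ∉ mob (σ γ) '' (q '' Sab a (a + h))) → ν z = 0) →
  (∀ t ∈ ball (0 : ℂ) 1, ∀ γ, Intw (σ γ) (R t γ) (nq (fun z => κ z + t * ν z))) → ‖t‖ < 1 →
  (∀ γ, r γ = C * R t γ * C⁻¹) → (∀ z ∈ D, den C (nq (fun z => κ z + t * ν z) z) ≠ 0) →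
  DifferentiableOn ℂ f (Sm (h * hf t)) → InjOn f (Sm (h * hf t)) →
  (∀ w ∈ Sab a (a + h), f (LT t (w - a * Complex.I)) =
    mob C (nq (fun z => κ z + t * ν z) (q w))) →
  Measurable μ → (∀ ξ, ‖μ ξ‖ ≤ 1) →
  (∀ γ, ∀ z ∈ D, μ (mob (r γ) (mob C (nq (fun z => κ z + t * ν z) z))) *
    conj ((den (r γ) (mob C (nq (fun z => κ z + t * ν z) z)) ^ 2)⁻¹) =
    μ (mob C (nq (fun z => κ z + t * ν z) z)) *
    (den (r γ) (mob C (nq (fun z => κ z + t * ν z) z)) ^ 2)⁻¹) →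
  (∀ ξ, (∀ γ : Γ, ξ ∉ mob (r γ) '' (f '' Sm (h * hf t))) → μ ξ = 0) →
  (∀ w ∈ Sm (h * hf t), μ (f w) * conj (deriv f w) =
    ((1 + conj t) / (1 + t)) * deriv f w) →
  ∀ s : ℂ, ‖s‖ < 1 → ∃ C' : SL, ∀ γ,
    Intw (r γ) (C' * R ((s + t) / (1 + conj t * s)) γ * C'⁻¹) (nq (fun z => s * μ z))

/-- TDI (about 400 lines)
(The disc of representations.)  Assembly of the previous modules.
Proof. `V, C3` from hFUL, `a = 64 + V`, `ε0 = min 1 (π/(2a + 2))`.  `Γ` is torsion free (hATFR), countable.  Let `ll (σ α) ≤ ε0`;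
`SC (σ α) l q` (hSCE, hHY2), `l = ll (σ α)` (`SC.lsh`, `l > 0`: `sinh(l/2)² = sh`), `h = π/l - 2a ≥ 2 > 0`.  `ν` from hNUG for `r = σ`, `A = D`,
`f w = q (w + a i)` on `Sm h` (disjointness: hCOL (1), `l ≤ 1`), `μ0 = 1`; `InvB (σ γ) ν` (on `D` by hNUG, outside both sides vanish,
the circle and one point are null).  `R` from hFAM; `R 0 = ρ`.  Let `t ∈ ball 0 1`.  `τ = t ν`, hBCH: `μs, κ', k', σ'`,
`StI σ' κ' k' (R t)`, `H = nq μs`, `μs = t ν` on `D`.  `SC (σ' α) l' q'` (hSCE, hHY2).  hSTM with `b = 64` (on `Sab 64 (π/l - 64)`: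
`μs (q w) conj q' = t q'` in the strip `a < Im w < π/l - a`, and `0` otherwise, since a point `q w` with `w ∈ Sab 64 (π/l - 64)` is in no
translate of `q '' Sab a (π/l - a)` by an element which is not a power of `α`, by hCOL (1)): `φ`.  hCFI (the
assumption on `μs`: `ν` vanishes off the translates).  hFUL: `π/l' ≤ h hf t + C3`, `l' ≤ 1`, and `φ` maps the
closed strip `V ≤ Im ≤ V + h hf t` into `Sab 64 (π/l' - 64)`.  `ll (σ' α) = l'`.  Other lengths: hLNG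
(`nq μs '' (q '' {a ≤ Im ≤ π/l - a}) ⊆ q' '' Sab 64 (π/l' - 64)`: the relation of hSTM and `LE t a h w - 64 i ∈ {V ≤ Im ≤ V + h hf t}`).
If `1 ≤ h hf t`: `φ1 ζ = φ (ζ + V i)` on `Sm (h hf t)`, `HN (h hf t) φ1`; hCRD: `r, C, A, B, lam, G`, `Ann`, `Cls`.  `μ` from hNUG for `r`, `A`
(`KD.mpA`, `KD.opA`), `f = exp (lam G (φ1 ·))`, `μ0 = (1 + conj t)/(1+t)` (modulus one), `Ann.dj`: this is `Cof` (`ff lam G φ1`,
`EE lam G φ1 0 (h hf t) = f '' Sm (h hf t)`; if a point is in no translate then `μ = 0`).  hEXC (the relation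
`f (LT t (w - a i)) = mob C (nq (κ + tν) (q w))` for `w ∈ Sab a (a+h)`: `nq (κ+tν) (q w) = nq κ' (H (q w)) = nq κ' (q' (φ (LE t a h w - 64 i)))`
and `LE t a h w - 64 i - V i = LT t (w - a i)`; invariance on `A = mob C '' (nq κ' '' D) = mob C '' (nq (κ+tν) '' D)`).
`HolDisc R`: hFAM and hGQFS for the homeomorphism `nq (κ + t ν)`.
Hypotheses: hSUB hMET hHY2 hSCE hCEN hCOL hNUG hFAM hBCH hSTM hCFI hFUL hLNG hCRD hEXC hLEQ hATFR hGQFS. -/
def StTDI : Prop := ∃ ε0 C3 C4 : ℝ, 0 < ε0 ∧ 0 ≤ C3 ∧ 0 ≤ C4 ∧ ∀ (g : ℕ) (a0 : ℝ), 2 ≤ g →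
  (∀ τ : SurfaceGroup g →* SL, Fuch τ → ∃ F0 : Set ℂ, FD τ F0 ∧
    (∫ z in F0, 4 / (1 - ‖z‖ ^ 2) ^ 2) ≤ a0) →
  ∀ (σ ρ : SurfaceGroup g →* SL) (κ : ℂ → ℂ) (k : ℝ) (α : SurfaceGroup g), StI σ κ k ρ → Prim α →
  ll (σ α) ≤ ε0 → ∃ (R : ℂ → SurfaceGroup g →* SL) (h : ℝ), R 0 = ρ ∧ Real.pi / ll (σ α) - C4 ≤ h ∧
    0 < h ∧ TDisc R α h 1 C3 a0 ∧ ∀ t ∈ ball (0 : ℂ) 1, ∃ (σ' : SurfaceGroup g →* SL) (κ' : ℂ → ℂ)
      (k' : ℝ), StI σ' κ' k' (R t) ∧ 0 < ll (σ' α) ∧ Real.pi / ll (σ' α) ≤ h * hf t + C3 ∧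
      ∀ β : SurfaceGroup g, Prim β → ¬ Cj α β → ll (σ' β) ≤ 1 / 82 → ll (σ β) ≤ 2 * ll (σ' β)

/-- The area statement of part A. -/
def StAAIN : Prop := ∀ (Γ : Type) [Group Γ] (σ τ : Γ →* SL), Fuch σ → Fuch τ → TF Γ →
  (∃ F : Set ℂ, FD σ F) ∧ ∀ F F' : Set ℂ, FD σ F → FD τ F' →
    (∫ z in F, 4 / (1 - ‖z‖ ^ 2) ^ 2) = ∫ z in F', 4 / (1 - ‖z‖ ^ 2) ^ 2

/-- OPA (about 120 lines)
(Opening of one short curve.)  The statement is `StOP1` of `Defs2.lean` under the hypothesis `StCST`.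
Proof. `ε0', C3, C4` from hTDI; `a0` = the common area of all Fuchsian representations of the surface group
(hAAIN with hATFR; if there is no Fuchsian representation there is nothing to prove); for `g` let `ms, K, D` be the
constants of `StCST` for `C3, a0`.  `ε0 = min ε0' (π/(C4 + K ms))`: then
`h ≥ π/ll - C4 ≥ K ms`.  `t = (h - K ms)/(h + K ms) ∈ [0,1)`: `hf t = (1-t)/(1+t) = K ms/h` (`t` real), `h hf t = K ms ≥ 1`.
`TDisc R α h ms C3 a0` follows from `TDisc R α h 1 C3 a0` (`1 ≤ ms`).  `StCST`: `pressureDist U ρ (R t) ≤ D`.  `σ', κ', k'` of hTDI at `t`: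
`ll (σ' α) ≥ π/(K ms + C3)`.  `ε1 = min (π/(K ms + C3)) (1/82)`.
Hypotheses: hTDI hAAIN hATFR. -/
def StOPA : Prop := StCST → StOP1

/-- BDX (about 200 lines)
(Boundary values of an equivariant homeomorphism of the disc.)
Proof. `b` from hQDFCO for `σ, τ` (`CC τ`, `limitSet τ = Qp '' SS`, `Qinf ∉ limitSet τ`, `Lam τ = SS`: hQDFSU, hQDLQC).  `E' = E` on `D`, `b` on
`SS`.  Continuity at `ζ ∈ SS` along a sequence `z_n ∈ D`, exactly as in QD module SEX (`StSEX`, proved: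
`Pool/Agent/Helper7/QD/M_SEX.lean`): `z_n = mob (σ γ_n) u_n`, `‖u_n‖ ≤ r` (cocompactness), `mob (σ γ_n) 0 → ζ`, so
`orb τ γ_n → Qp (b ζ)`; `E z_n = mob (τ γ_n) (E u_n)` with `E u_n` in the compact subset `E '' closedBall 0 r` of `D`, so
`‖mob (τ γ_n) (E u_n) - mob (τ γ_n) 0‖ → 0` (`hd` of the two points is bounded, hMET, and `‖mob (τ γ_n) 0‖ → 1`) and
`mob (τ γ_n) 0 → b ζ` (`orb τ γ = density (A Aᴴ)`, `= !![1/2, x; conj x, 1/2]`, `x = w/(1+‖w‖²)`, `w = mob (τ γ) 0`; `Qp ζ' =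
!![1/2, ζ'/2; ..]`).  Equivariance on `SS` from hQDFCO; `BijOn E' SS SS`.
Hypotheses: hSUB hMET hQDFCO hQDFSU hQDLQC. -/
def StBDX : Prop := ∀ (Γ : Type) [Group Γ] (σ τ : Γ →* SL) (E : ℂ → ℂ), Fuch σ → Fuch τ →
  BijOn E D D → ContinuousOn E D → (∀ γ, ∀ z ∈ D, E (mob (σ γ) z) = mob (τ γ) (E z)) →
  ∃ E' : ℂ → ℂ, (∀ z ∈ D, E' z = E z) ∧ ContinuousOn E' DD ∧ BijOn E' SS SS ∧
    ∀ γ, ∀ z ∈ DD, E' (mob (σ γ) z) = mob (τ γ) (E' z)

/-- Mumford compactness in the form of helper17's glue. -/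
def StGMU0 : Prop := Pool.Agent.Helper17.QD.StMU0

/-- MUA (about 150 lines)
(Mumford compactness with markings.)  The statement is `StGMU0` (helper17's `StMU0`).
Proof. Let `Γ` be the surface group (torsion free: hATFR), `s0` Fuchsian, `A0` the area of a fundamental domain of `s0`
(hAAIN: it is the area for every `Fuch σ`, and fundamental domains exist).  Helper17's `Thk ε σ` says
`2 + ε ≤ ‖tr (σ γ)‖` for `γ ≠ 1`; for `σ γ ∈ SU(1,1)` the trace is real, so `sh (σ γ) = (tr)²/4 - 1 ≥ (2+ε)²/4 - 1 =: ε' > 0`: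
`Thick σ ε'`.  hMUM for `Γ, s0, A0, ε'`: `k`, and for `σ`: `φ, σ', E`.  `pre φ s0 γ = s0 (φ γ)` is `Fuch` (same image; `Fuch` transported
by the bijection `φ`).  hBDX for `pre φ s0`, `σ'`, `E`: `E'` continuous on `DD`, bijective on `SS`, equal to `E` on `D` (so the same
derivatives at points of the open set `D`).  `σ' = σ` or `σ' = cc σ` (entrywise conjugate): `Cnj (pre φ s0) σ E'` or
`Cnj (pre φ s0) (cc σ) E'`.
Hypotheses: hMUM hBDX hAAIN hATFR. -/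
def StMUA : Prop := StGMU0

end Pool.Agent.Helper20.QP
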