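import Pool.Agent.Helper20.QP.St3
import Pool.Agent.Helper86.QA.St5

/-!
# Project QD, part P: the area statement `StAAIN` from part A
-/

set_option autoImplicit false

open Filter Topology Matrix Set Metric MeasureTheory
open scoped ComplexConjugate ENNReal

namespace Pool.Agent.Helper20.QP

open Pool.Agent.Helper35.PM (hs Mat SL)
open Pool.Agent.Helper20.QD

/-- Part A: fundamental domains exist, and the area is the same for all Fuchsian representations. -/
theorem hAAIN (hAIN : Pool.Agent.Helper86.QA.StAIN) (hAFD : Pool.Agent.Helper86.QA.StAFD) :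
    StAAIN := by
  intro Γ _ σ τ hσ hτ hT
  refine ⟨?_, ?_⟩
  · obtain ⟨-, -, ⟨F, r, -, hF, -⟩, -, -⟩ := hAFD Γ σ hσ hT
    exact ⟨F, hF⟩
  · intro F F' hF hF'
    exact (hAIN Γ σ τ hσ hτ hT F F' hF hF').1

end Pool.Agent.Helper20.QP
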