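import Pool.Agent.Helper20.QP.Defs2
import Pool.Agent.Helper88.QT.St4

/-!
# Project QD, part P: `StCST` from helper88's `StCSF`
-/

set_option autoImplicit false

open Filter Topology Matrix Set Metric MeasureTheory
open scoped ComplexConjugate ENNReal

namespace Pool.Agent.Helper20.QP

open Pool.Agent.Helper35.PM (hs Mat SL IsDiscrete SurfaceGroup Adapted IsQF HolDisc pressureDist)
open Pool.Agent.Helper20.QD
open Pool.Agent.Helper88.QT (TDa PtD rc Tp)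

theorem TDa_of_TDisc {Γ : Type} [Group Γ] {ρ : ℂ → Γ →* SL} {α : Γ} {m ms C3 a0 : ℝ}
    (hT : TDisc ρ α m ms C3 a0) : TDa ρ α m ms C3 a0 := by
  refine ⟨hT.hol, ?_⟩
  intro t ht hmt
  obtain ⟨r, C, A, B, lam, M, G, φ, μ, μ0, hr, hAnn, hAr, hCls, hCof, hI⟩ := hT.pts t ht hmt
  refine ⟨r, A, B, lam, M, G, φ, μ, μ0, ⟨⟨C, ?_⟩, hAnn, hCls, hCof, ?_, ?_⟩⟩
  · intro γ
    have h0 : rc ρ t 0 = ρ t := by
      unfold rc Tp
      simp
    rw [h0]
    exact hr γ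
  · intro s hs
    obtain ⟨C', h⟩ := hI s hs
    exact ⟨C', h⟩
  · obtain ⟨F, F', s1, s2, h1, h2, h3⟩ := hAr
    exact ⟨F, F', s1, s2, h1, h2, h3⟩

/-- `StCST` from helper88's `StCSF`. -/
theorem CST_of_CSF (h : Pool.Agent.Helper88.QT.StCSF) : StCST := by
  intro g hg C3 a0 hC3 ha0
  obtain ⟨ms, K, D, hms, hK, hD, H⟩ := h g hg C3 a0 hC3 ha0
  refine ⟨ms, K, D, hms, hK, hD, ?_⟩
  intro U hU ρ α m hT t ht0 ht1 hm
  exact H U hU ρ α m (TDa_of_TDisc hT) t ht0 ht1 hm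

end Pool.Agent.Helper20.QP
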