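import Pool.Agent.Helper17.QD.Asm
import Pool.Agent.Helper20.QP.AsmP
import Pool.Agent.Helper20.QP.M_AAIN
import Pool.Agent.Helper20.QP.M_CST
import Pool.Agent.Helper31.QT.M_HN2
import Pool.Agent.Helper66.QT.M_HN1
import Pool.Agent.Helper78.QT.M_KQ
import Pool.Agent.Helper80.QT.M_HN3
import Pool.Agent.Helper36.QS.M_CMX
import Pool.Agent.Helper40.QS.M_GEV
import Pool.Agent.Helper86.QA.All4
import Pool.Agent.Helper82.QP.M_NUG
import Pool.Agent.Helper10.QP.M_FAM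
import Pool.Agent.Helper29.QP.M_BCH
import Pool.Agent.Helper44.QP.M_LEQ
import Pool.Agent.Helper30.QP.M_STM
import Pool.Agent.Helper22.QP.M_CFI
import Pool.Agent.Helper80.QP.M_FUL
import Pool.Agent.Helper84.QP.M_LNG
import Pool.Agent.Helper54.QP.M_MBC
import Pool.Agent.Helper18.QP.M_CRD
import Pool.Agent.Helper36.QP.M_EXC
import Pool.Agent.Helper51.QP.M_TDI
import Pool.Agent.Helper24.QP.M_OPA

/-!
# MP_d112a4_gt, project QD, part P: assembly of St3 (opening of one short curve)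
-/

set_option autoImplicit false

namespace Pool.Agent.Helper20.QP

open Pool.Agent.Helper68
open Pool.Agent.Helper20.QD (b_SUB)
open Pool.Agent.Helper17.QD (g_INC g_QFS)
open Pool.Agent.Helper86.QA (tTQF tTGO tTFR tKDG)

theorem pQP_HN2 : StTHN2 :=
  Pool.Agent.Helper31.QT.hHN2 (Pool.Agent.Helper66.QT.hHN1 Pool.Agent.Helper78.QT.hKQ)

theorem pQP_NUG : StNUG := Pool.Agent.Helper82.QP.hNUG

theorem pQP_FAM : StFAM := Pool.Agent.Helper10.QP.hFAM QCA.REP QCA.ITW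

theorem pQP_BCH : StBCH :=
  Pool.Agent.Helper29.QP.hBCH b_SUB pQP_MET QCA.EX QCA.UNI QCA.CMP QCA.NUL QCA.REP QCA.SYC g_INC

theorem pQP_LEQ : StLEQ := Pool.Agent.Helper44.QP.hLEQ QCA.UNI

theorem pQP_STM : StSTM := Pool.Agent.Helper30.QP.hSTM b_SUB pQP_LEQ QCA.EX QCA.FAC QCA.PRE

theorem pQP_CFI : StCFI := Pool.Agent.Helper22.QP.hCFI b_SUB pQP_MET QCA.CNF

theorem pQP_FUL : StFUL :=
  Pool.Agent.Helper80.QP.hFUL b_SUB pQP_COL pQP_HN2 Pool.Agent.Helper80.QT.hHN3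

theorem pQP_LNG : StLNG := Pool.Agent.Helper84.QP.hLNG b_SUB pQP_COL Pool.Agent.Helper80.QT.hHN3

theorem pQP_MBC : StMBC :=
  Pool.Agent.Helper54.QP.hMBC (Pool.Agent.Helper40.QS.pGEV QCA.EX QCA.FAC QCA.PRE QCA.AFF)

theorem pQP_EXC : StEXC :=
  Pool.Agent.Helper36.QP.hEXC b_SUB pQP_MBC pQP_LEQ QCA.EX QCA.UNI QCA.NUL QCA.UNW g_INC QCA.CVM
    (Pool.Agent.Helper36.QS.pCMX QCA.NQD QCA.CVM QCA.NUL QCA.PSH QCA.UNI QCA.UNW) QCA.PRW

theorem pQP_CRD : StCRD :=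
  Pool.Agent.Helper18.QP.hCRD b_SUB pQP_MET pQP_HY2 pQP_CEN pQP_COL tTGO tKDG QCA.CNF
    Pool.Agent.Helper20.QD.b_WOU

theorem pQP_TDI : StTDI :=
  Pool.Agent.Helper51.QP.hTDI b_SUB pQP_MET pQP_HY2 pQP_SCE pQP_CEN pQP_COL pQP_NUG pQP_FAM
    pQP_BCH pQP_STM pQP_CFI pQP_FUL pQP_LNG pQP_CRD pQP_EXC pQP_LEQ tTFR (g_QFS tTQF)

/-- Opening of one short curve, from the tube theorem and the area statement. -/
theorem pQP_OP1_of (hCST : StCST) (hAIN : Pool.Agent.Helper86.QA.StAIN) : StOP1 :=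
  Pool.Agent.Helper24.QP.hOPA pQP_TDI (hAAIN hAIN Pool.Agent.Helper86.QA.tAFD) tTFR
    pQP_HY2 hCST

end Pool.Agent.Helper20.QP
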