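import Pool.Agent.Helper20.QP.AsmP2
import Pool.Agent.Helper63.QP2.All2
import Pool.Agent.Helper86.QA.All4
import Pool.Agent.Helper88.QT.All2

/-!
# MP_d112a4_gt, project QD, part P: closed theorems (opening of short curves)
-/

set_option autoImplicit false

namespace Pool.Agent.Helper20.QP

/-- Opening of one short curve costs a bounded amount. -/
theorem pQP_OP1 : StOP1 := pQP_OP1_of Pool.Agent.Helper88.QT.tCST Pool.Agent.Helper86.QA.tAIN

/-- Opening of all short curves of both ends (helper17's glue statement `StOPN`). -/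
theorem pQP_OPN : Pool.Agent.Helper17.QD.StOPN :=
  Pool.Agent.Helper63.QP2.OPN_of pQP_OP1 Pool.Agent.Helper86.QA.tAIN Pool.Agent.Helper86.QA.tAFD

end Pool.Agent.Helper20.QP
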