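import Pool.Agent.Helper20.QD.St5
import Pool.Agent.Helper86.QA.Defs
import Pool.Agent.Helper68.QC.Defs

/-!
# Project QD (MP_d112a4_gt), PART P: the geometry of Fuchsian groups, collars, unpinching, Mumford
# compactness.  Definitions.

Model: the unit disc `D`, `SU(1,1)` acting by `mob` (`Pool/Agent/Helper20/QD/Defs.lean`), `Fuch σ` = discrete
cocompact representation into `SU(1,1)`.
-/

set_option autoImplicit false

open Filter Topology Matrix Set Metric MeasureTheory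
open scoped ComplexConjugate ENNReal

namespace Pool.Agent.Helper20.QP

open Pool.Agent.Helper35.PM (hs Mat SL IsDiscrete)
open Pool.Agent.Helper20.QD

/-- `sinh²(d/2)`, `d` the hyperbolic distance of the disc -/
noncomputable def dl (z w : ℂ) : ℝ := ‖z - w‖ ^ 2 / ((1 - ‖z‖ ^ 2) * (1 - ‖w‖ ^ 2))

/-- hyperbolic distance of the disc -/
noncomputable def hd (z w : ℂ) : ℝ := 2 * Real.arsinh (Real.sqrt (dl z w))

/-- `sinh²(ℓ/2)`, `ℓ` the translation length (for `A ∈ SU(1,1)` hyperbolic); it is `(tr A)²/4 - 1` -/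
noncomputable def sh (A : SL) : ℝ := ((A : Mat).trace.re) ^ 2 / 4 - 1

/-- horizontal strip -/
def Sm (m : ℝ) : Set ℂ := {w | 0 < w.im ∧ w.im < m}

/-- the strip of heights between `a` and `b` -/
def Sab (a b : ℝ) : Set ℂ := {w | a < w.im ∧ w.im < b}

/-- torsion free -/
def TF (Γ : Type) [Group Γ] : Prop := ∀ (γ : Γ) (n : ℕ), 1 ≤ n → γ ^ n = 1 → γ = 1

variable {Γ : Type} [Group Γ]

/-- all translation lengths are bounded below -/
def Thick (σ : Γ →* SL) (ε : ℝ) : Prop := ∀ γ : Γ, γ ≠ 1 → ε ≤ sh (σ γ)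

/-- every point of the disc can be moved to distance at most `2 arsinh √b` from the centre -/
def Coc (σ : Γ →* SL) (b : ℝ) : Prop := ∀ z ∈ D, ∃ γ : Γ, dl 0 (mob (σ γ) z) ≤ b

/-- the centraliser of `α` is generated by `α` -/
def Prim (α : Γ) : Prop := α ≠ 1 ∧ ∀ γ : Γ, Commute γ α → ∃ n : ℤ, γ = α ^ n

/-- The strip coordinate of a hyperbolic element: `q` maps the strip of height `π/l` conformally
onto the disc and conjugates `w ↦ w + 1` to `A`; `l` is the translation length of `A`. -/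
structure SC (A : SL) (l : ℝ) (q : ℂ → ℂ) : Prop where
  l0 : 0 < l
  lsh : Real.sinh (l / 2) ^ 2 = sh A
  hol : DifferentiableOn ℂ q (Sm (Real.pi / l))
  bij : BijOn q (Sm (Real.pi / l)) D
  per : ∀ w ∈ Sm (Real.pi / l), q (w + 1) = mob A (q w)
  dst : ∀ w ∈ Sm (Real.pi / l), ∀ w' ∈ Sm (Real.pi / l), dl (q w) (q w') =
    ‖Complex.sinh ((l : ℂ) * (w - w') / 2)‖ ^ 2 / (Real.sin (l * w.im) * Real.sin (l * w'.im))
  den : ∀ w ∈ Sm (Real.pi / l), ‖deriv q w‖ * 2 / (1 - ‖q w‖ ^ 2) = l / Real.sin (l * w.im)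

/-- hyperbolic area -/
noncomputable def ar (S : Set ℂ) : ℝ≥0∞ := ∫⁻ z in S, ENNReal.ofReal (4 / (1 - ‖z‖ ^ 2) ^ 2)

/-- fundamental domain for the action on the disc -/
def FD (σ : Γ →* SL) (F0 : Set ℂ) : Prop :=
  Pool.Agent.Helper86.QA.FDOn (fun (γ : Γ) z => mob (σ γ) z) (Metric.ball 0 1) F0

/-- conjugate (up to inversion) -/
def Cj (α β : Γ) : Prop := ∃ γ : Γ, γ * α * γ⁻¹ = β ∨ γ * α * γ⁻¹ = β⁻¹

/-- the point of the hyperboloid of `z`: `(a, b)` with `a² - |b|² = 1` -/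
noncomputable def Pz (z : ℂ) : ℝ × ℂ :=
  ((1 + ‖z‖ ^ 2) / (1 - ‖z‖ ^ 2), 2 * z / ((1 - ‖z‖ ^ 2 : ℝ) : ℂ))

/-- the centre: the point of the disc of a vector `(a, b)`, `|b| < a` -/
noncomputable def cm (v : ℝ × ℂ) : ℂ := v.2 / ((v.1 + Real.sqrt (v.1 ^ 2 - ‖v.2‖ ^ 2) : ℝ) : ℂ)

/-- cut off function -/
noncomputable def cut (b x : ℝ) : ℝ := (max 0 (b + 1 - x)) ^ 2

/-- averaged map with matrices `A i`, `C i` -/
noncomputable def GA {ι : Type} [Fintype ι] (b : ℝ) (A C : ι → SL) (z : ℂ) : ℂ :=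
  cm (∑ i, cut b (dl 0 (mob (A i)⁻¹ z)) • Pz (mob (C i) z))

end Pool.Agent.Helper20.QP
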