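import Pool.Agent.Helper20.QP.St2
import Pool.Agent.Helper85.QT.Defs2
import Pool.Agent.Helper17.QD.Glue

/-!
# Project QD (MP_d112a4_gt), PART P: definitions for the opening of one short curve

`StI σ κ k ρ`: a state with the end `X` INSIDE the disc (`nq κ` is conformal in `D`).  `TDisc` is the
interface with the tube theorem (helper85, helper88).
-/

set_option autoImplicit false

open Filter Topology Matrix Set Metric MeasureTheory
open scoped ComplexConjugate ENNReal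

namespace Pool.Agent.Helper20.QP

open Pool.Agent.Helper35.PM (hs Mat SL IsDiscrete SurfaceGroup Adapted IsQF HolDisc pressureDist)
open Pool.Agent.Helper20.QD
open Pool.Agent.Helper68.QC (nq Bel InvB Intw)
open Pool.Agent.Helper85.QT (HN Ann Cof Cls)
open Pool.Agent.Helper86.QA (CF FDOn ab rX)

/-- translation length -/
noncomputable def ll (A : SL) : ℝ := 2 * Real.arsinh (Real.sqrt (sh A))

/-- A state: `σ` is Fuchsian, the coefficient `κ` is supported outside the disc, so that the end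
`X = D/σ` is INSIDE. -/
structure StI {Γ : Type} [Group Γ] (σ : Γ →* SL) (κ : ℂ → ℂ) (k : ℝ) (ρ : Γ →* SL) : Prop where
  fs : Fuch σ
  k0 : 0 ≤ k
  k1 : k < 1
  bel : Bel k κ
  in0 : ∀ z : ℂ, ‖z‖ ≤ 1 → κ z = 0
  inv : ∀ γ, InvB (σ γ) κ
  int : ∀ γ, Intw (σ γ) (ρ γ) (nq κ)

/-- the height factor `Re ((1-t)/(1+t))` -/
noncomputable def hf (t : ℂ) : ℝ := ((1 - t) / (1 + t)).re

/-- the affine map of dilatation `t` which fixes `0` and `1` -/
noncomputable def LT (t w : ℂ) : ℂ := (w + t * conj w) / (1 + t)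

/-- the map which is `LT t` (up to translation) in the strip of heights `(a, a + h)`, a translation
above and the identity below; continuous -/
noncomputable def LE (t : ℂ) (a h : ℝ) (w : ℂ) : ℂ :=
  if w.im ≤ a then w
  else if w.im ≤ a + h then a * Complex.I + LT t (w - a * Complex.I)
  else w - h * Complex.I + LT t (h * Complex.I)

/-- conformal maps of the two domains, areas of the quotients at most `a0` -/
def Areas {Γ : Type} [Group Γ] (r : Γ →* SL) (A B : Set ℂ) (a0 : ℝ) : Prop :=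
  ∃ (F F' : ℂ → ℂ) (s1 s2 : Γ →* SL), CF r A F s1 ∧ CF r B F' s2 ∧ ∀ DA DB : Set ℂ,
    FDOn (ab r) A DA → FDOn (ab r) B DB →
    (∫⁻ ξ in DA, ENNReal.ofReal (rX F ξ)) ≤ ENNReal.ofReal a0 ∧
    (∫⁻ ξ in DB, ENNReal.ofReal (rX F' ξ)) ≤ ENNReal.ofReal a0

/-- The affine stretch of an annulus on the end `A` of a quasifuchsian representation: the disc of
representations `ρ t`, based at every point `t` whose annulus is not too short. -/
structure TDisc {Γ : Type} [Group Γ] (ρ : ℂ → Γ →* SL) (α : Γ) (m ms C3 a0 : ℝ) : Prop where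
  hol : HolDisc ρ
  pts : ∀ t ∈ ball (0 : ℂ) 1, ms ≤ m * hf t → ∃ (r : Γ →* SL) (C : SL) (A B : Set ℂ) (lam : ℂ)
    (M : ℝ) (G φ μ : ℂ → ℂ) (μ0 : ℂ), (∀ γ, r γ = C * ρ t γ * C⁻¹) ∧
    Ann r A B α lam M G (m * hf t) φ C3 ∧ Areas r A B a0 ∧ Cls A B lam G φ (m * hf t) ∧
    Cof r A lam G φ (m * hf t) μ0 μ ∧
    ∀ s : ℂ, ‖s‖ < 1 → ∃ C' : SL, ∀ γ,
      Intw (r γ) (C' * ρ ((s + t) / (1 + conj t * s)) γ * C'⁻¹) (nq (fun z => s * μ z))

/-- **COST** (the tube theorem, stage 2; owners helper85, helper88): opening costs a bounded amount. -/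
def StCST : Prop := ∀ g : ℕ, 2 ≤ g → ∀ C3 a0 : ℝ, 0 ≤ C3 → 0 ≤ a0 →
  ∃ ms K D : ℝ, 1 ≤ ms ∧ 1 ≤ K ∧ 0 ≤ D ∧
  ∀ U : (SurfaceGroup g →* SL) → Ultrafilter ℝ, (∀ ρ, IsQF ρ → Adapted (U ρ) ρ) →
  ∀ (ρ : ℂ → SurfaceGroup g →* SL) (α : SurfaceGroup g) (m : ℝ), TDisc ρ α m ms C3 a0 →
    ∀ t : ℝ, 0 ≤ t → t < 1 → K * ms ≤ m * hf t →
      pressureDist U (ρ 0) (ρ t) ≤ ENNReal.ofReal D

/-- **OP1** (opening of one short curve): conclusion of part P (before the induction over the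
short curves). -/
def StOP1 : Prop := ∀ g : ℕ, 2 ≤ g → ∃ ε0 ε1 D : ℝ, 0 < ε0 ∧ 0 < ε1 ∧ 0 ≤ D ∧
  ∀ U : (SurfaceGroup g →* SL) → Ultrafilter ℝ, (∀ ρ, IsQF ρ → Adapted (U ρ) ρ) →
  ∀ (σ ρ : SurfaceGroup g →* SL) (κ : ℂ → ℂ) (k : ℝ) (α : SurfaceGroup g), StI σ κ k ρ →
    Prim α → ll (σ α) ≤ ε0 →
    ∃ (σ' ρ' : SurfaceGroup g →* SL) (κ' : ℂ → ℂ) (k' : ℝ), StI σ' κ' k' ρ' ∧
      pressureDist U ρ ρ' ≤ ENNReal.ofReal D ∧ ε1 ≤ ll (σ' α) ∧
      ∀ β : SurfaceGroup g, Prim β → ¬ Cj α β → ll (σ' β) ≤ ε1 → ll (σ β) ≤ 2 * ll (σ' β)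

end Pool.Agent.Helper20.QP
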